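import Pool.Agent.H40.CK.B11

/-!
# CL / C11: counting good edges, subcubic version

Modify `Pool.Agent.H40.CK.goodE_card` (file CK/B11.lean).  `a` = number of `v ∈ H.support` of `H`-degree two.
At least `a - #Bad` of them have degree three in `G`, hence exactly one `G`-edge not in `H`.  So `D` has at
least `a - #Bad - 3 t` darts not in `H` (at most `3 t` darts end outside `H.support`), and at least
`3 (n₁ - a) - 2 a` darts in `H` (vertices of `H.support` have `H`-degree two or three).
`5 #D ≥ 4 (a - #Bad - 3t) + (3 n₁ - 4 a - #Bad - 3 t) = 3 n₁ - 15 t - 5 #Bad`.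
-/

namespace Pool.Agent.H40.CL

open SimpleGraph Pool.Agent.H40.CK

variable {V : Type*}

theorem goodE_card [Finite V] {G H : SimpleGraph V} (hsub : ∀ v, (G.neighborSet v).ncard ≤ 3)
    (Bad : Set V) (hBad : ∀ v, v ∉ Bad → (G.neighborSet v).ncard = 3)
    (hle : H ≤ G) (h2 : ∀ v ∈ H.support, 2 ≤ (H.neighborSet v).ncard) :
    3 * H.support.ncard ≤ 10 * (goodE G H).ncard + 15 * (H.supportᶜ).ncard + 5 * Bad.ncard := by
  classical
  have := Fintype.ofFinite V
  -- degrees
  have hle3 : ∀ v, (H.neighborSet v).ncard ≤ 3 := by
    intro v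
    exact (Set.ncard_le_ncard (fun w hw => hle hw) (Set.toFinite _)).trans (hsub v)
  have hadj : ∀ {v w}, H.Adj v w → v ∈ H.support := fun h => ⟨_, h⟩
  set A : Finset V := Finset.univ.filter fun v => (H.neighborSet v).ncard = 2 with hA
  set B : Finset V := Finset.univ.filter fun v => (H.neighborSet v).ncard = 3 with hB
  set T : Finset V := Finset.univ.filter fun v => v ∉ H.support with hT
  have hsupp : ∀ v, v ∈ H.support ↔ (v ∈ A ∨ v ∈ B) := by
    intro v
    simp only [hA, hB, Finset.mem_filter, Finset.mem_univ, true_and]
    constructor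
    · intro hv
      have h3 := hle3 v
      have h2' := h2 v hv
      omega
    · intro h
      have hne : (H.neighborSet v).Nonempty := by
        rw [Set.nonempty_iff_ne_empty]
        intro he
        rw [he, Set.ncard_empty] at h
        omega
      obtain ⟨w, hw⟩ := hne
      exact ⟨w, hw⟩
  have hn1 : H.support.ncard = A.card + B.card := by
    have : H.support = ((A ∪ B : Finset V) : Set V) := by
      ext v; simp only [Finset.coe_union, Set.mem_union, Finset.mem_coe]; exact hsupp v
    rw [this, Set.ncard_coe_finset, Finset.card_union_of_disjoint]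
    rw [Finset.disjoint_left]
    intro v h1 h3
    simp only [hA, hB, Finset.mem_filter] at h1 h3
    omega
  have ht : (H.supportᶜ).ncard = T.card := by
    have : H.supportᶜ = (T : Set V) := by
      ext v; simp [hT]
    rw [this, Set.ncard_coe_finset]
  -- the dart sets
  set D : Finset (V × V) := Finset.univ.filter fun d => s(d.1, d.2) ∈ goodE G H with hD
  set D1 : Finset (V × V) := Finset.univ.filter fun d =>
    G.Adj d.1 d.2 ∧ ¬ H.Adj d.1 d.2 ∧ d.1 ∈ H.support ∧ d.2 ∈ H.support with hD1
  set D2 : Finset (V × V) := Finset.univ.filter fun d =>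
    H.Adj d.1 d.2 ∧ d.1 ∈ B ∧ d.2 ∈ B with hD2
  have hBmem : ∀ v, v ∈ B ↔ (H.neighborSet v).ncard = 3 := by intro v; simp [hB]
  have hAmem : ∀ v, v ∈ A ↔ (H.neighborSet v).ncard = 2 := by intro v; simp [hA]
  have hsubD : D1 ∪ D2 ⊆ D := by
    intro d hd
    simp only [hD, Finset.mem_filter, Finset.mem_univ, true_and]
    rw [Finset.mem_union] at hd
    rcases hd with hd | hd
    · simp only [hD1, Finset.mem_filter, Finset.mem_univ, true_and] at hd
      obtain ⟨h1, h3, h4, h5⟩ := hd
      refine ⟨h1, ?_, Or.inl h3⟩
      intro z hz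
      rcases Sym2.mem_iff.1 hz with rfl | rfl
      · exact h4
      · exact h5
    · simp only [hD2, Finset.mem_filter, Finset.mem_univ, true_and] at hd
      obtain ⟨h1, h3, h4⟩ := hd
      refine ⟨hle h1, ?_, Or.inr ?_⟩
      · intro z hz
        rcases Sym2.mem_iff.1 hz with rfl | rfl
        · exact hadj h1
        · exact hadj h1.symm
      · intro z hz
        rcases Sym2.mem_iff.1 hz with rfl | rfl
        · exact (hBmem _).1 h3
        · exact (hBmem _).1 h4
  have hdisj : Disjoint D1 D2 := by
    rw [Finset.disjoint_left]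
    intro d h1 h3
    simp only [hD1, hD2, Finset.mem_filter, Finset.mem_univ, true_and] at h1 h3
    exact h1.2.1 h3.1
  have hcard : D1.card + D2.card ≤ D.card := by
    rw [← Finset.card_union_of_disjoint hdisj]
    exact Finset.card_le_card hsubD
  -- `#D ≤ 2 #goodE`
  have hDgood : D.card ≤ 2 * (goodE G H).ncard := by
    have h1 : D.card ≤ 2 * (D.image fun d => s(d.1, d.2)).card := by
      apply Finset.card_le_mul_card_image
      intro e he
      obtain ⟨d, -, rfl⟩ := Finset.mem_image.1 he
      have : (D.filter fun x => s(x.1, x.2) = s(d.1, d.2)) ⊆ {(d.1, d.2), (d.2, d.1)} := by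
        intro x hx
        rw [Finset.mem_filter, Sym2.eq_iff] at hx
        rcases hx.2 with ⟨h1, h2⟩ | ⟨h1, h2⟩
        · simp [← h1, ← h2]
        · simp [← h1, ← h2]
      exact (Finset.card_le_card this).trans (Finset.card_le_two)
    have h3 : (D.image fun d => s(d.1, d.2)).card ≤ (goodE G H).ncard := by
      rw [← Set.ncard_coe_finset]
      apply Set.ncard_le_ncard _ (Set.toFinite _)
      intro e he
      obtain ⟨d, hd, rfl⟩ := Finset.mem_image.1 (Finset.mem_coe.1 he)
      simp only [hD, Finset.mem_filter, Finset.mem_univ, true_and] at hd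
      exact hd
    omega
  -- first bound
  have hb1 : A.card ≤ D1.card + 3 * T.card + Bad.ncard := by
    set A' : Finset V := A.filter fun v => v ∉ Bad with hA'
    have hAA : A.card ≤ A'.card + Bad.ncard := by
      have h1 : A.card = A'.card + (A.filter fun v => ¬ v ∉ Bad).card :=
        (Finset.card_filter_add_card_filter_not _).symm
      have h3 : (A.filter fun v => ¬ v ∉ Bad).card ≤ Bad.ncard := by
        rw [← Set.ncard_coe_finset]
        refine Set.ncard_le_ncard (fun v hv => ?_) (Set.toFinite _)
        have := (Finset.mem_filter.1 (Finset.mem_coe.1 hv)).2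
        exact not_not.1 this
      omega
    refine hAA.trans (Nat.add_le_add_right ?_ _)
    have hw : ∀ v ∈ A', ∃ w, G.Adj v w ∧ ¬ H.Adj v w := by
      intro v hv
      by_contra hcon
      push Not at hcon
      have : (G.neighborSet v).ncard ≤ (H.neighborSet v).ncard :=
        Set.ncard_le_ncard (fun w hw => hcon w hw) (Set.toFinite _)
      rw [hBad v (Finset.mem_filter.1 hv).2, (hAmem v).1 (Finset.mem_filter.1 hv).1] at this
      omega
    choose! f hf1 hf2 using hw
    set E : Finset (V × V) := Finset.univ.filter fun d => G.Adj d.1 d.2 ∧ d.2 ∈ T with hE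
    have hEc : E.card ≤ 3 * T.card := by
      rw [hE, B11_card' (fun v w => G.Adj v w ∧ w ∈ T)]
      have h1 : ∀ w, (Finset.univ.filter fun v => G.Adj v w ∧ w ∈ T).card ≤
          if w ∈ T then 3 else 0 := by
        intro w
        by_cases hw : w ∈ T
        · simp only [hw, and_true, if_true]
          rw [B11_deg']
          exact hsub w
        · simp [hw]
      refine (Finset.sum_le_sum fun w _ => h1 w).trans ?_
      rw [← Finset.sum_filter]
      simp [mul_comm]
    have himg : A'.image (fun v => (v, f v)) ⊆ D1 ∪ E := by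
      intro d hd
      obtain ⟨v, hv, rfl⟩ := Finset.mem_image.1 hd
      rw [Finset.mem_union]
      by_cases h : f v ∈ H.support
      · left
        simp only [hD1, Finset.mem_filter, Finset.mem_univ, true_and]
        exact ⟨hf1 v hv, hf2 v hv, (hsupp v).2 (Or.inl (Finset.mem_filter.1 hv).1), h⟩
      · right
        simp only [hE, Finset.mem_filter, Finset.mem_univ, true_and]
        exact ⟨hf1 v hv, by simpa [hT] using h⟩
    have hinj : (A'.image (fun v => (v, f v))).card = A'.card := by
      apply Finset.card_image_of_injective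
      intro x y hxy
      exact (Prod.ext_iff.1 hxy).1
    rw [← hinj]
    refine (Finset.card_le_card himg).trans ((Finset.card_union_le _ _).trans ?_)
    omega
  -- second bound
  have hb2 : 3 * B.card ≤ D2.card + 2 * A.card := by
    set E3 : Finset (V × V) := Finset.univ.filter fun d => H.Adj d.1 d.2 ∧ d.1 ∈ B with hE3
    set E32 : Finset (V × V) := Finset.univ.filter fun d => H.Adj d.1 d.2 ∧ d.2 ∈ A with hE32
    have hc3 : E3.card = 3 * B.card := by
      rw [hE3, B11_card (fun v w => H.Adj v w ∧ v ∈ B)]
      have h1 : ∀ v, (Finset.univ.filter fun w => H.Adj v w ∧ v ∈ B).card =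
          if v ∈ B then 3 else 0 := by
        intro v
        by_cases hv : v ∈ B
        · simp only [hv, and_true, if_true]
          rw [B11_deg]; exact (hBmem v).1 hv
        · simp [hv]
      rw [Finset.sum_congr rfl fun v _ => h1 v, ← Finset.sum_filter]
      simp [mul_comm]
    have hc32 : E32.card = 2 * A.card := by
      rw [hE32, B11_card' (fun v w => H.Adj v w ∧ w ∈ A)]
      have h1 : ∀ w, (Finset.univ.filter fun v => H.Adj v w ∧ w ∈ A).card =
          if w ∈ A then 2 else 0 := by
        intro v
        by_cases hv : v ∈ A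
        · simp only [hv, and_true, if_true]
          rw [B11_deg']; exact (hAmem v).1 hv
        · simp [hv]
      rw [Finset.sum_congr rfl fun v _ => h1 v, ← Finset.sum_filter]
      simp [mul_comm]
    have hsub3 : E3 ⊆ D2 ∪ E32 := by
      intro d hd
      simp only [hE3, Finset.mem_filter, Finset.mem_univ, true_and] at hd
      rw [Finset.mem_union]
      rcases (hsupp d.2).1 (hadj hd.1.symm) with h | h
      · right
        simp only [hE32, Finset.mem_filter, Finset.mem_univ, true_and]
        exact ⟨hd.1, h⟩
      · left
        simp only [hD2, Finset.mem_filter, Finset.mem_univ, true_and]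
        exact ⟨hd.1, hd.2, h⟩
    have := (Finset.card_le_card hsub3).trans (Finset.card_union_le _ _)
    omega
  rw [hn1, ht]
  omega

end Pool.Agent.H40.CL
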