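import Pool.Agent.H40.CK.B2a

/-!
# CL / C2a: ears, subcubic version of `Pool.Agent.H40.CK.exists_ear`
-/

namespace Pool.Agent.H40.CL

open SimpleGraph Pool.Agent.H40.CK

variable {V : Type*}

theorem exists_ear [Finite V] {G : SimpleGraph V} (hsub : ∀ v, (G.neighborSet v).ncard ≤ 3) {c : ℤ → V}
    {m ℓ : ℕ} (hc : CycSeq G c m) (hm : 3 ≤ m) {i : ℤ} {y : V} (hy : G.Adj (c i) y)
    (hy1 : y ≠ c (i + 1)) (hy2 : y ≠ c (i - 1))
    (hZ : ∃ (w : V) (Z : G.Walk w w), Z.IsCycle ∧ Z.length ≤ ℓ ∧ s(c i, y) ∈ Z.edges) :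
    ∃ (j : ℤ) (P : G.Walk (c i) (c j)), P.IsPath ∧ c i ≠ c j ∧ P.length < ℓ ∧
      (∀ k, c k ∈ P.support → c k = c i ∨ c k = c j) ∧ (∀ k, s(c k, c (k + 1)) ∉ P.edges) := by
  obtain ⟨w, Z, hZc, hZl, hZe⟩ := hZ
  obtain ⟨t, r, hr, hxr, hty, hadj, hrl⟩ := B2a_cycle_edge Z hZc hZe
  have hadj2 : G.Adj (c i) (c (i - 1)) := by
    have := hc.adj (i - 1)
    rw [sub_add_cancel] at this
    exact this.symm
  have hne : c (i + 1) ≠ c (i - 1) := by
    intro h
    have hd := (hc.eq_iff _ _).1 h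
    have hd' : (m : ℤ) ∣ 2 := by
      have := (dvd_neg (α := ℤ)).2 hd
      rwa [show -(i - 1 - (i + 1)) = (2 : ℤ) by ring] at this
    have := Int.le_of_dvd (by norm_num) hd'
    omega
  have hfin : (G.neighborSet (c i)).Finite := Set.toFinite _
  have hset : ({c (i + 1), c (i - 1), y} : Set V) = G.neighborSet (c i) := by
    apply Set.eq_of_subset_of_ncard_le
    · intro z hz
      simp only [Set.mem_insert_iff, Set.mem_singleton_iff] at hz
      rcases hz with rfl | rfl | rfl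
      · exact hc.adj i
      · exact hadj2
      · exact hy
    · have h3 : ({c (i + 1), c (i - 1), y} : Set V).ncard = 3 :=
        Set.ncard_eq_three.2 ⟨_, _, _, hne, hy1.symm, hy2.symm, rfl⟩
      rw [h3]
      exact hsub (c i)
    · exact hfin
  have htS : t ∈ Set.range c := by
    have : t ∈ ({c (i + 1), c (i - 1), y} : Set V) := by
      rw [hset]
      exact hadj
    simp only [Set.mem_insert_iff, Set.mem_singleton_iff] at this
    rcases this with h | h | h
    · exact ⟨_, h.symm⟩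
    · exact ⟨_, h.symm⟩
    · exact absurd h hty
  obtain ⟨w1, ⟨j, rfl⟩, P, hP, hPl, hPS, hPq⟩ :=
    B2a_firstHit (Set.range c) r hr ⟨t, r.end_mem_support, htS⟩
  have hiP : c i ∉ P.support := fun h => hxr (hPq _ h)
  refine ⟨j, Walk.cons hy P, ?_, ?_, ?_, ?_, ?_⟩
  · rw [Walk.cons_isPath_iff]
    exact ⟨hP, hiP⟩
  · intro h
    apply hiP
    rw [h]
    exact P.end_mem_support
  · rw [Walk.length_cons]
    omega
  · intro k hk
    rw [Walk.support_cons, List.mem_cons] at hk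
    rcases hk with hk | hk
    · exact Or.inl hk
    · exact Or.inr (hPS _ hk ⟨k, rfl⟩)
  · intro k hk
    rw [Walk.edges_cons, List.mem_cons] at hk
    rcases hk with hk | hk
    · rcases Sym2.eq_iff.1 hk with ⟨h3, h4⟩ | ⟨h3, h4⟩
      · apply hy1
        rw [← h4, hc.eq_iff]
        have := (hc.eq_iff _ _).1 h3
        rwa [show i + 1 - (k + 1) = i - k by ring]
      · apply hy2
        rw [← h3, hc.eq_iff]
        have := (hc.eq_iff _ _).1 h4
        rwa [show i - 1 - k = i - (k + 1) by ring]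
    · have e1 := hPS _ (P.fst_mem_support_of_mem_edges hk) ⟨k, rfl⟩
      have e2 := hPS _ (P.snd_mem_support_of_mem_edges hk) ⟨k + 1, rfl⟩
      exact (hc.adj k).ne (e1.trans e2.symm)

end Pool.Agent.H40.CL
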