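import Pool.Agent.H40.CK.B2
import Pool.Agent.H40.CL.C2a

/-!
# CL / C2: a short cycle all of whose vertices, except one, have a third edge in a short cycle

Subcubic version of `Pool.Agent.H40.CK.shortChorded_of_cycle`.
-/

namespace Pool.Agent.H40.CL

open SimpleGraph Pool.Agent.H40.CK

variable {V : Type*}

theorem shortChorded_of_cycle [Finite V] {G : SimpleGraph V} {ℓ : ℕ}
    (hsub : ∀ v, (G.neighborSet v).ncard ≤ 3) {u : V} (C : G.Walk u u) (hC : C.IsCycle)
    (hlen : C.length ≤ ℓ) (p : V)
    (hthird : ∀ x ∈ C.support, x ≠ p → ∃ y, G.Adj x y ∧ s(x, y) ∉ C.edges ∧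
      ∃ (w : V) (Z : G.Walk w w), Z.IsCycle ∧ Z.length ≤ ℓ ∧ s(x, y) ∈ Z.edges) :
    ShortChorded G (3 * ℓ) := by
  classical
  obtain ⟨c, hc, -, hsupp, hedges⟩ := exists_cycSeq_of_cycle C hC
  have hm : 3 ≤ C.length := hC.three_le_length
  set m : ℕ := C.length with hmdef
  -- every vertex except `p` has an ear
  have hear : ∀ i, c i ≠ p → ∃ j, Ear G c ℓ i j := by
    intro i hi
    obtain ⟨y, hy, hnot, hZ⟩ := hthird (c i) ((hsupp _).2 ⟨i, rfl⟩) hi
    have hy1 : y ≠ c (i + 1) := by
      rintro rfl
      exact hnot ((hedges _).2 ⟨i, rfl⟩)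
    have hy2 : y ≠ c (i - 1) := by
      rintro rfl
      refine hnot ((hedges _).2 ⟨i - 1, ?_⟩)
      rw [sub_add_cancel]
      exact Sym2.eq_swap
    obtain ⟨j, hj⟩ := CL.exists_ear hsub hc hm hy hy1 hy2 hZ
    exact ⟨j, hj⟩
  -- the same with the other end in a window
  have hear' : ∀ i, c i ≠ p → ∃ j, i < j ∧ j < i + m ∧ Ear G c ℓ i j := by
    intro i hi
    obtain ⟨j, hj⟩ := hear i hi
    have hm0 : (0 : ℤ) < m := by omega
    have h1 : c i ≠ c j := by
      obtain ⟨P, -, h, -⟩ := hj
      exact h
    refine ⟨i + (j - i) % m, ?_, ?_, ?_⟩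
    · have h2 : 0 ≤ (j - i) % (m : ℤ) := Int.emod_nonneg _ (by omega)
      have h3 : (j - i) % (m : ℤ) ≠ 0 := by
        intro h3
        exact h1 ((hc.eq_iff _ _).2 (Int.dvd_of_emod_eq_zero h3))
      omega
    · have := Int.emod_lt_of_pos (j - i) hm0
      omega
    · refine hj.congr rfl ?_
      rw [hc.eq_iff]
      have h2 : i + (j - i) % (m : ℤ) - j = -((m : ℤ) * ((j - i) / m)) := by
        have := Int.emod_add_mul_ediv (j - i) m
        linarith
      rw [h2]
      exact (dvd_neg).2 (dvd_mul_right _ _)
  -- good pairs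
  let good : ℕ → Prop := fun d => ∃ i j : ℤ, i < j ∧ j < i + m ∧ Ear G c ℓ i j ∧
    (∀ k, i < k → k < j → c k ≠ p) ∧ (j - i).toNat = d
  have hgood : ∃ d, good d := by
    obtain ⟨i, hi⟩ : ∃ i, c i ≠ p := by
      by_cases h : c 0 = p
      · refine ⟨1, ?_⟩
        rw [← h]
        exact (hc.ne_of_lt (by omega) (by omega)).symm
      · exact ⟨0, h⟩
    obtain ⟨j, hij, hjm, hj⟩ := hear' i hi
    by_cases hall : ∀ k, i < k → k < j → c k ≠ p
    · exact ⟨_, i, j, hij, hjm, hj, hall, rfl⟩
    · push Not at hall
      obtain ⟨k0, hk1, hk2, hk3⟩ := hall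
      refine ⟨_, j, i + m, hjm, by omega, ?_, ?_, rfl⟩
      · refine hj.symm.congr rfl ?_
        have := hc.shift i 1
        simpa using this.symm
      · intro k hk4 hk5 hk6
        exact hc.ne_of_lt (a := k0) (b := k) (by omega) (by omega) (hk3.trans hk6.symm)
  obtain ⟨i, j, hij, hjm, hPear, hnop, hd⟩ := Nat.find_spec hgood
  have hmin : ∀ i' j' : ℤ, i' < j' → j' < i' + m → Ear G c ℓ i' j' →
      (∀ k, i' < k → k < j' → c k ≠ p) → j - i ≤ j' - i' := by
    intro i' j' h1 h2 h3 h4
    have := Nat.find_min' hgood ⟨i', j', h1, h2, h3, h4, rfl⟩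
    omega
  obtain ⟨P, hP, hne, hPl, hP4, hP5⟩ := hPear
  by_cases hcase : j = i + 1
  · subst hcase
    exact (shortChorded_of_adj hc hm P hP hPl.le hP4 hP5).mono le_rfl (by omega)
  -- the second ear
  have hwp : c (j - 1) ≠ p := hnop _ (by omega) (by omega)
  obtain ⟨k, hk1, hk2, hQear⟩ := hear' (j - 1) hwp
  have hkj : k ≠ j := by
    rintro rfl
    have := hmin (k - 1) k (by omega) (by omega) hQear (fun k' h1 h2 => by omega)
    omega
  have hki : k < i + m := by
    by_contra hcon
    push Not at hcon
    have := hmin (k - m) (j - 1) (by omega) (by omega)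
      (hQear.symm.congr (by have := hc.shift (k - m) 1; simpa using this) rfl)
      (fun k' h1 h2 => hnop k' (by omega) (by omega))
    omega
  obtain ⟨Q, hQ, hQne, hQl, hQ4, hQ5⟩ := hQear
  have hjk : j < k := by omega
  have hPpos : 1 ≤ P.length := by
    by_contra hcon
    exact hne (Walk.eq_of_length_eq_zero (p := P) (by omega))
  have hQpos : 1 ≤ Q.length := by
    by_contra hcon
    exact hQne (Walk.eq_of_length_eq_zero (p := Q) (by omega))
  by_cases hshare : ∃ x, x ∈ Q.support ∧ x ∈ P.support
  · -- the two ears meet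
    obtain ⟨x, hxP, hxQ, hxmin⟩ := Q.exists_mem_support_forall_mem_support_imp_eq P.support.toFinset
      (by
        obtain ⟨x, h1, h2⟩ := hshare
        exact ⟨x, by simp [h1, h2]⟩)
    rw [List.mem_toFinset] at hxP
    set Q1 := Q.takeUntil x hxQ with hQ1
    set P2 := P.dropUntil x hxP with hP2
    have hQ1s : ∀ w, w ∈ Q1.support → w ∈ Q.support :=
      fun w hw => Q.support_takeUntil_subset_support hxQ hw
    have hP2s : ∀ w, w ∈ P2.support → w ∈ P.support :=
      fun w hw => P.support_dropUntil_subset_support hxP hw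
    have hQ1e : ∀ e, e ∈ Q1.edges → e ∈ Q.edges :=
      fun e he => Q.edges_takeUntil_subset_edges hxQ he
    have hP2e : ∀ e, e ∈ P2.edges → e ∈ P.edges :=
      fun e he => P.edges_dropUntil_subset_edges hxP he
    have hpath : (Q1.append P2).IsPath := by
      refine isPath_append' (hQ.takeUntil hxQ) (hP.dropUntil hxP) ?_
      intro w hw hw'
      exact hxmin w (List.mem_toFinset.2 (hP2s w hw')) hw
    -- `x` is none of the ends
    have hxk : x ≠ c k := by
      intro h
      rw [h] at hxP
      rcases hP4 k hxP with h1 | h1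
      · exact hc.ne_of_lt (a := i) (b := k) (by omega) (by omega) h1.symm
      · exact hc.ne_of_lt (a := j) (b := k) (by omega) (by omega) h1.symm
    have hxi : x ≠ c i := by
      intro h
      rw [h] at hxQ
      rcases hQ4 i hxQ with h1 | h1
      · exact hc.ne_of_lt (a := i) (b := j - 1) (by omega) (by omega) h1
      · exact hc.ne_of_lt (a := i) (b := k) (by omega) (by omega) h1
    have hj1 : c (j - 1 + 1) = c j := by rw [sub_add_cancel]
    have hR4 : ∀ t, c t ∈ (Q1.append P2).support → c t = c (j - 1) ∨ c t = c j := by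
      intro t ht
      rw [Walk.mem_support_append_iff] at ht
      rcases ht with ht | ht
      · rcases hQ4 t (hQ1s _ ht) with h1 | h1
        · exact Or.inl h1
        · exfalso
          rw [h1] at ht
          exact hxk (mem_take_drop hQ hxQ ht (Walk.end_mem_support _)).symm
      · rcases hP4 t (hP2s _ ht) with h1 | h1
        · exfalso
          rw [h1] at ht
          exact hxi (mem_take_drop hP hxP (Walk.start_mem_support _) ht).symm
        · exact Or.inr h1
    have hR5 : ∀ t, s(c t, c (t + 1)) ∉ (Q1.append P2).edges := by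
      intro t ht
      rw [Walk.edges_append, List.mem_append] at ht
      rcases ht with ht | ht
      · exact hQ5 t (hQ1e _ ht)
      · exact hP5 t (hP2e _ ht)
    have hRl : (Q1.append P2).length ≤ 2 * ℓ := by
      rw [Walk.length_append]
      have h1 : Q1.length ≤ Q.length := Q.length_takeUntil_le_length hxQ
      have h2 : P2.length ≤ P.length := P.length_dropUntil_le_length hxP
      omega
    have key := shortChorded_of_adj (N := 2 * ℓ) hc hm (i := j - 1)
      ((Q1.append P2).copy rfl hj1.symm) (by simpa using hpath) (by simpa using hRl)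
      (by
        intro t ht
        rw [Walk.support_copy] at ht
        rw [hj1]
        exact hR4 t ht)
      (by
        intro t ht
        rw [Walk.edges_copy] at ht
        exact hR5 t ht)
    exact key.mono le_rfl (by omega)
  · -- the two ears are disjoint
    push Not at hshare
    obtain ⟨A, hA, hAl, hAs, hAe⟩ := arc hc (a := i) (b := j - 1) (by omega) (by omega)
    obtain ⟨B, hB, hBl, hBs, hBe⟩ := arc hc (a := j) (b := k) (by omega) (by omega)
    have hAQ : (A.append Q).IsPath := by
      refine isPath_append' hA hQ ?_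
      intro w hw hw'
      rw [hAs] at hw
      obtain ⟨a, ha1, ha2, rfl⟩ := hw
      rcases hQ4 a hw' with h1 | h1
      · exact h1
      · exact absurd h1 (hc.ne_of_lt (by omega) (by omega))
    have hPB : (P.append B).IsPath := by
      refine isPath_append' hP hB ?_
      intro w hw hw'
      rw [hBs] at hw'
      obtain ⟨b, hb1, hb2, rfl⟩ := hw'
      rcases hP4 b hw with h1 | h1
      · exact absurd h1.symm (hc.ne_of_lt (by omega) (by omega))
      · exact h1
    have hj1 : c (j - 1 + 1) = c j := by rw [sub_add_cancel]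
    have key := glue (A.append Q) (P.append B).reverse hAQ hPB.reverse
      (hc.ne_of_lt (by omega) (by omega))
      (by
        intro w hw hw'
        rw [Walk.mem_support_append_iff] at hw
        rw [Walk.support_reverse, List.mem_reverse, Walk.mem_support_append_iff] at hw'
        rcases hw with hw | hw
        · rw [hAs] at hw
          obtain ⟨a, ha1, ha2, rfl⟩ := hw
          rcases hw' with hw' | hw'
          · rcases hP4 a hw' with h1 | h1
            · exact Or.inl h1
            · exact absurd h1 (hc.ne_of_lt (by omega) (by omega))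
          · rw [hBs] at hw'
            obtain ⟨b, hb1, hb2, hb3⟩ := hw'
            exact absurd hb3 (hc.ne_of_lt (by omega) (by omega))
        · rcases hw' with hw' | hw'
          · exact absurd hw' (hshare w hw)
          · rw [hBs] at hw'
            obtain ⟨b, hb1, hb2, rfl⟩ := hw'
            rcases hQ4 b hw with h1 | h1
            · exact absurd h1.symm (hc.ne_of_lt (by omega) (by omega))
            · exact Or.inr h1)
      (by
        rw [Walk.length_reverse, Walk.length_append, Walk.length_append]
        omega)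
      (x := c (j - 1)) (y := c (j - 1 + 1)) (hc.adj (j - 1))
      (Or.inl (by
        rw [Walk.mem_support_append_iff]
        exact Or.inl (Walk.end_mem_support _)))
      (Or.inr (by
        rw [hj1, Walk.support_reverse, List.mem_reverse, Walk.mem_support_append_iff]
        exact Or.inl (Walk.end_mem_support _)))
      (by
        rw [Walk.edges_append, List.mem_append, not_or]
        refine ⟨?_, hQ5 _⟩
        intro hcon
        rw [hAe] at hcon
        obtain ⟨t, ht1, ht2, ht3⟩ := hcon
        have h6 := hc.eq_of_edge_eq hm ht3.symm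
        have := Int.le_of_dvd (by omega) h6
        omega)
      (by
        rw [Walk.edges_reverse, List.mem_reverse, Walk.edges_append, List.mem_append, not_or]
        refine ⟨hP5 _, ?_⟩
        intro hcon
        rw [hBe] at hcon
        obtain ⟨t, ht1, ht2, ht3⟩ := hcon
        have h6 := hc.eq_of_edge_eq hm ht3
        have := Int.le_of_dvd (by omega) h6
        omega)
    refine key.mono le_rfl ?_
    rw [Walk.length_reverse, Walk.length_append, Walk.length_append]
    omega

end Pool.Agent.H40.CL
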