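import Pool.Agent.H40.CK.B3a
import Pool.Agent.H40.CL.C2

/-!
# CL / C3a: the hitting set `Y`, subcubic version

Subcubic version of `Pool.Agent.H40.CK.exists_hitting_vertices`.
-/

namespace Pool.Agent.H40.CL

open SimpleGraph Pool.Agent.H40.CK

variable {V : Type*}

theorem exists_hitting_vertices [Finite V] {G : SimpleGraph V}
    (hsub3 : ∀ v, (G.neighborSet v).ncard ≤ 3) {s : ℕ} (hno : ¬ ShortChorded G (3 * s)) :
    ∃ Y : Set V,
      (∀ (u : V) (C : G.Walk u u), C.IsCycle → C.length ≤ s → ∃ y ∈ Y, y ∈ C.support) ∧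
      (∀ y ∈ Y, ({x | ∃ (u : V) (C : G.Walk u u), C.IsCycle ∧ C.length ≤ s ∧ s(y, x) ∈ C.edges} :
        Set V).ncard = 2) ∧
      (∀ y ∈ Y, ∃ (u : V) (C : G.Walk u u), C.IsCycle ∧ C.length ≤ s ∧ y ∈ C.support ∧
        ∀ z ∈ C.support, z ∈ Y → z = y) := by
  classical
  set sh : V → Set V := fun y =>
    {x | ∃ (u : V) (C : G.Walk u u), C.IsCycle ∧ C.length ≤ s ∧ s(y, x) ∈ C.edges} with hsh
  have hsub : ∀ v, sh v ⊆ G.neighborSet v := by
    rintro v x ⟨u, C, -, -, he⟩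
    exact C.adj_of_mem_edges he
  have hthree : ∀ v, (sh v).ncard ≤ 3 := fun v =>
    (Set.ncard_le_ncard (hsub v) (Set.toFinite _)).trans (hsub3 v)
  have htwo : ∀ (u : V) (C : G.Walk u u), C.IsCycle → C.length ≤ s → ∀ v ∈ C.support,
      2 ≤ (sh v).ncard := by
    intro u C hC hl v hv
    rw [← hC.ncard_neighborSet_toSubgraph_eq_two hv]
    refine Set.ncard_le_ncard ?_ (Set.toFinite _)
    intro x hx
    refine ⟨u, C, hC, hl, ?_⟩
    have h := (Subgraph.mem_edgeSet (G' := C.toSubgraph)).2 hx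
    rwa [Walk.mem_edges_toSubgraph] at h
  set Z : Set V := {v | (sh v).ncard = 2} with hZ
  have hitZ : ∀ (u : V) (C : G.Walk u u), C.IsCycle → C.length ≤ s → ∃ y ∈ Z, y ∈ C.support := by
    intro u C hC hl
    by_contra hcon
    refine hno (CL.shortChorded_of_cycle hsub3 C hC hl u ?_)
    intro x hx _
    have h2 := htwo u C hC hl x hx
    have h3 := hthree x
    have hne : (sh x).ncard ≠ 2 := fun h => hcon ⟨x, h, hx⟩
    have h4 := hC.ncard_neighborSet_toSubgraph_eq_two hx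
    obtain ⟨y, hy1, hy2⟩ : ∃ y ∈ sh x, y ∉ C.toSubgraph.neighborSet x := by
      by_contra hcon'
      push Not at hcon'
      have := Set.ncard_le_ncard (show sh x ⊆ C.toSubgraph.neighborSet x from hcon')
        (Set.toFinite _)
      omega
    refine ⟨y, hsub x hy1, ?_, hy1⟩
    intro he
    apply hy2
    rw [Subgraph.mem_neighborSet, Walk.adj_toSubgraph_iff_mem_edges]
    exact he
  obtain ⟨Y, hYmin⟩ := (Set.toFinite {Y : Set V | Y ⊆ Z ∧ ∀ (u : V) (C : G.Walk u u), C.IsCycle →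
    C.length ≤ s → ∃ y ∈ Y, y ∈ C.support}).exists_minimal ⟨Z, subset_rfl, hitZ⟩
  have hY := hYmin.prop
  refine ⟨Y, hY.2, fun y hy => hY.1 hy, fun y hy => ?_⟩
  have hnot : ¬ ∀ (u : V) (C : G.Walk u u), C.IsCycle → C.length ≤ s →
      ∃ z ∈ Y \ {y}, z ∈ C.support := by
    intro hall
    have := hYmin.le_of_le (y := Y \ {y}) ⟨Set.sdiff_subset.trans hY.1, hall⟩ Set.sdiff_subset
    exact (this hy).2 rfl
  push Not at hnot
  obtain ⟨u, C, hC, hl, hmiss⟩ := hnot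
  obtain ⟨z, hz, hzC⟩ := hY.2 u C hC hl
  have huniq : ∀ z ∈ C.support, z ∈ Y → z = y := by
    intro z hz hzY
    by_contra hzy
    exact hmiss z ⟨hzY, hzy⟩ hz
  have hzy : z = y := huniq z hzC hz
  subst hzy
  exact ⟨u, C, hC, hl, hzC, huniq⟩

end Pool.Agent.H40.CL
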