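import Pool.Agent.H40.CK.B3
import Pool.Agent.H40.CL.C3a

/-!
# CL / C3: the matching `E` hitting all short cycles, subcubic version

Subcubic version of `Pool.Agent.H40.CK.exists_hitData`.
-/

namespace Pool.Agent.H40.CL

open SimpleGraph Pool.Agent.H40.CK

variable {V : Type*}

private theorem b3_two {G : SimpleGraph V} {u : V} {C : G.Walk u u} (hC : C.IsCycle) {v : V}
    (hv : v ∈ C.support) : ({x | s(v, x) ∈ C.edges} : Set V).ncard = 2 := by
  have h := hC.ncard_neighborSet_toSubgraph_eq_two hv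
  have e : (C.toSubgraph.neighborSet v) = {x | s(v, x) ∈ C.edges} := by
    ext x
    rw [Subgraph.mem_neighborSet, Walk.adj_toSubgraph_iff_mem_edges]
    rfl
  rw [← e]
  exact h

theorem exists_hitData [Finite V] {G : SimpleGraph V}
    (hsub3 : ∀ v, (G.neighborSet v).ncard ≤ 3) {s : ℕ} (hno : ¬ ShortChorded G (3 * s)) :
    ∃ E : SimpleGraph V, HitData G E s := by
  classical
  haveI : Fintype V := Fintype.ofFinite V
  obtain ⟨Y, hY1, hY2, hY3⟩ := CL.exists_hitting_vertices hsub3 hno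
  set W : V → Set V := fun y => {x | ∃ (u : V) (C : G.Walk u u), C.IsCycle ∧ C.length ≤ s ∧
    s(y, x) ∈ C.edges} with hW
  -- every short cycle through `y ∈ Y` uses exactly the edges to `W y`
  have F1 : ∀ y ∈ Y, ∀ (u : V) (C : G.Walk u u), C.IsCycle → C.length ≤ s → y ∈ C.support →
      ∀ x ∈ W y, s(y, x) ∈ C.edges := by
    intro y hy u C hC hl hyC x hx
    have hsub : ({x | s(y, x) ∈ C.edges} : Set V) ⊆ W y := fun z hz => ⟨u, C, hC, hl, hz⟩
    have heq : ({x | s(y, x) ∈ C.edges} : Set V) = W y :=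
      Set.eq_of_subset_of_ncard_le hsub (by rw [b3_two hC hyC]; exact (hY2 y hy).le)
        (Set.toFinite _)
    rw [← heq] at hx
    exact hx
  have hadj : ∀ y x, x ∈ W y → G.Adj y x := by
    rintro y x ⟨u, C, -, -, he⟩
    exact C.adj_of_mem_edges he
  have F2 : ∀ y ∈ Y, ∀ x ∈ W y, x ∉ Y := by
    intro y hy x hx hxY
    obtain ⟨u, C, hC, hl, hyC, hp⟩ := hY3 y hy
    have he := F1 y hy u C hC hl hyC x hx
    have hxC : x ∈ C.support := C.snd_mem_support_of_mem_edges he
    have := hp x hxC hxY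
    subst this
    exact (hadj _ _ hx).ne rfl
  have F3 : ∀ x, ({y | y ∈ Y ∧ x ∈ W y} : Set V).ncard ≤ 2 := by
    intro x
    by_cases hne : ({y | y ∈ Y ∧ x ∈ W y} : Set V).Nonempty
    · obtain ⟨y, hy, hxy⟩ := hne
      obtain ⟨u, C, hC, hl, hyC, hp⟩ := hY3 y hy
      have he := F1 y hy u C hC hl hyC x hxy
      have hxC : x ∈ C.support := C.snd_mem_support_of_mem_edges he
      have h2 := b3_two hC hxC
      -- another neighbour of `x` on `C`
      obtain ⟨y', hy', hne'⟩ : ∃ y' ∈ ({z | s(x, z) ∈ C.edges} : Set V), y' ≠ y := by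
        by_contra hcon
        push Not at hcon
        have : ({z | s(x, z) ∈ C.edges} : Set V) ⊆ {y} := fun z hz => hcon z hz
        have := Set.ncard_le_ncard this (Set.toFinite _)
        rw [h2, Set.ncard_singleton] at this
        omega
      have hy'C : y' ∈ C.support := C.snd_mem_support_of_mem_edges hy'
      have hy'Y : y' ∉ Y := fun h => hne' (hp y' hy'C h)
      have hy'G : y' ∈ G.neighborSet x := C.adj_of_mem_edges hy'
      have hsub : ({y | y ∈ Y ∧ x ∈ W y} : Set V) ⊆ G.neighborSet x \ {y'} := by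
        rintro z ⟨hz, hxz⟩
        refine ⟨(hadj _ _ hxz).symm, ?_⟩
        rintro rfl
        exact hy'Y hz
      refine (Set.ncard_le_ncard hsub (Set.toFinite _)).trans ?_
      rw [Set.ncard_diff_singleton_of_mem hy'G]
      have := hsub3 x
      omega
    · rw [Set.not_nonempty_iff_eq_empty] at hne
      rw [hne, Set.ncard_empty]
      omega
  -- Hall
  obtain ⟨f, hfi, hf⟩ : ∃ f : Y → V, Function.Injective f ∧ ∀ y : Y, f y ∈ (W y).toFinset := by
    rw [← Finset.all_card_le_biUnion_card_iff_exists_injective]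
    intro A
    have := Finset.card_mul_le_card_mul (s := A) (t := A.biUnion fun y : Y => (W y).toFinset)
      (fun (y : Y) (x : V) => x ∈ W y) (m := 2) (n := 2) ?_ ?_
    · omega
    · intro y hy
      have e : (A.biUnion fun y : Y => (W y).toFinset).bipartiteAbove
          (fun (y : Y) (x : V) => x ∈ W y) y = (W y).toFinset := by
        ext x
        simp only [Finset.mem_bipartiteAbove, Finset.mem_biUnion, Set.mem_toFinset]
        constructor
        · exact fun h => h.2
        · exact fun h => ⟨⟨y, hy, h⟩, h⟩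
      rw [e, ← Set.ncard_eq_toFinset_card']
      exact (hY2 y y.2).ge
    · intro x _
      have h1 : ((A.bipartiteBelow (fun (y : Y) (x : V) => x ∈ W y) x).image Subtype.val).card =
          (A.bipartiteBelow (fun (y : Y) (x : V) => x ∈ W y) x).card :=
        Finset.card_image_of_injective _ Subtype.val_injective
      rw [← h1, ← Set.ncard_coe_finset]
      refine le_trans (Set.ncard_le_ncard ?_ (Set.toFinite _)) (F3 x)
      intro z hz
      simp only [Finset.coe_image, Set.mem_image, Finset.mem_coe, Finset.mem_bipartiteBelow] at hz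
      obtain ⟨y, ⟨-, hy⟩, rfl⟩ := hz
      exact ⟨y.2, hy⟩
  have hf' : ∀ y : Y, f y ∈ W y := fun y => by simpa using hf y
  refine ⟨fromEdgeSet {e | ∃ y : Y, e = s((y : V), f y)}, ?_, ?_, ?_, ?_⟩
  · intro a b hab
    rw [fromEdgeSet_adj] at hab
    obtain ⟨⟨y, hy⟩, -⟩ := hab
    have h := hadj _ _ (hf' y)
    rw [← mem_edgeSet, ← hy, mem_edgeSet] at h
    exact h
  · intro x y z hxy hxz
    rw [fromEdgeSet_adj] at hxy hxz
    obtain ⟨⟨a, ha⟩, -⟩ := hxy
    obtain ⟨⟨b, hb⟩, -⟩ := hxz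
    rw [Sym2.eq_iff] at ha hb
    rcases ha with ⟨h1, h2⟩ | ⟨h1, h2⟩ <;> rcases hb with ⟨h3, h4⟩ | ⟨h3, h4⟩
    · have : a = b := Subtype.ext (h1.symm.trans h3)
      rw [h2, h4, this]
    · exfalso
      apply F2 b b.2 (f b) (hf' b)
      rw [← h3, h1]
      exact a.2
    · exfalso
      apply F2 a a.2 (f a) (hf' a)
      rw [← h1, h3]
      exact b.2
    · have : a = b := hfi (h1.symm.trans h3)
      rw [h2, h4, this]
  · intro u C hC hl
    obtain ⟨y, hy, hyC⟩ := hY1 u C hC hl
    have he := F1 y hy u C hC hl hyC _ (hf' ⟨y, hy⟩)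
    refine ⟨_, he, ?_⟩
    rw [mem_edgeSet, fromEdgeSet_adj]
    exact ⟨⟨⟨y, hy⟩, rfl⟩, (hadj _ _ (hf' ⟨y, hy⟩)).ne⟩
  · intro e he
    rw [edgeSet_fromEdgeSet] at he
    obtain ⟨⟨y, rfl⟩, -⟩ := he
    obtain ⟨u, C, hC, hl, hyC, hp⟩ := hY3 y y.2
    refine ⟨u, C, hC, hl, F1 y y.2 u C hC hl hyC _ (hf' y), ?_⟩
    intro e' he' heE
    rw [edgeSet_fromEdgeSet] at heE
    obtain ⟨⟨y', rfl⟩, -⟩ := heE
    have hy' : (y' : V) = y := hp y' (C.fst_mem_support_of_mem_edges he') y'.2
    have : y' = y := Subtype.ext hy'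
    rw [this]

end Pool.Agent.H40.CL
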