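import Pool.Agent.H40.CL.C2
import Pool.Agent.H40.CK.B1
import Pool.Agent.H40.CK.B4
import Pool.Agent.H40.CK.B6

/-!
# CL / C6: small components of `cyc (G \ E)`, subcubic version

Same proof as `Pool.Agent.H40.CK.small_comp` (file CK/B6.lean); the vertices of the component `κ` have
degree exactly three in `G`.
-/

namespace Pool.Agent.H40.CL

open SimpleGraph Pool.Agent.H40.CK

variable {V : Type*}

theorem small_comp [Finite V] {G E : SimpleGraph V} (hsub3 : ∀ v, (G.neighborSet v).ncard ≤ 3)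
    {s K : ℕ} (hsK : s ≤ K) (hE : HitData G E s) (κ : (cyc (G \ E)).ConnectedComponent)
    (hκ : ∀ v ∈ κ.supp, (G.neighborSet v).ncard = 3)
    (hnt : κ.supp.Nontrivial) (hK : κ.supp.ncard ≤ K) (hb : bdeg (G \ E) κ ≤ 2) :
    ShortChorded G (3 * K) := by
  classical
  have hle : cyc (G \ E) ≤ G := (cyc_le _).trans sdiff_le
  set BD : Set (V × V) := {d : V × V | d.1 ∈ κ.supp ∧ (G \ E).Adj d.1 d.2 ∧
    ¬ (cyc (G \ E)).Adj d.1 d.2} with hBD
  have hBDcard : BD.ncard ≤ 2 := hb
  by_cases hA : ∃ d ∈ BD, ∃ (w : V) (Z : G.Walk w w), Z.IsCycle ∧ Z.length ≤ K ∧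
      s(d.1, d.2) ∈ Z.edges
  · -- Case A
    obtain ⟨d₀, hd₀, w₀, Z₀, hZ₀, hZl, hZe⟩ := hA
    obtain ⟨u, hu⟩ := hnt.nonempty
    obtain ⟨v, huv⟩ := B6.mem_support hnt hu
    obtain ⟨C, hC, -⟩ := cyc_cycle huv
    obtain ⟨p, hp⟩ : ∃ p : V, ∀ d ∈ BD, d.1 ≠ p → d = d₀ := by
      by_cases h : ∃ d ∈ BD, d ≠ d₀
      · obtain ⟨d₁, hd₁, hne⟩ := h
        refine ⟨d₁.1, fun d hd hdp => ?_⟩
        by_contra hdd
        have hd1 : d ≠ d₁ := fun h => hdp (by rw [h])
        have hsub : (({d, d₀, d₁} : Finset (V × V)) : Set (V × V)) ⊆ BD := by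
          intro z hz
          simp only [Finset.coe_insert, Finset.coe_singleton, Set.mem_insert_iff,
            Set.mem_singleton_iff] at hz
          rcases hz with rfl | rfl | rfl
          · exact hd
          · exact hd₀
          · exact hd₁
        have h3 := Set.ncard_le_ncard hsub (Set.toFinite _)
        rw [Set.ncard_coe_finset, Finset.card_eq_three.2 ⟨d, d₀, d₁, hdd, hd1, hne.symm, rfl⟩] at h3
        omega
      · push Not at h
        exact ⟨u, fun d hd _ => h d hd⟩
    refine CL.shortChorded_of_cycle hsub3 (C.mapLe hle) (hC.mapLe hle)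
      (by simpa using (B6.cycle_length_le hu C hC).trans hK) p ?_
    intro x hx hxp
    have hxC : x ∈ C.support := by simpa using hx
    have hxκ : x ∈ κ.supp := B6.mem_of_reachable hu ⟨C.takeUntil x hxC⟩
    have h4 := (hC.mapLe hle).ncard_neighborSet_toSubgraph_eq_two hx
    obtain ⟨y, hxy, hy2⟩ : ∃ y ∈ G.neighborSet x, y ∉ (C.mapLe hle).toSubgraph.neighborSet x := by
      by_contra hcon'
      push Not at hcon'
      have := Set.ncard_le_ncard
        (show G.neighborSet x ⊆ (C.mapLe hle).toSubgraph.neighborSet x from hcon') (Set.toFinite _)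
      rw [hκ x hxκ] at this
      omega
    refine ⟨y, hxy, ?_, ?_⟩
    · intro he
      apply hy2
      rw [Subgraph.mem_neighborSet, Walk.adj_toSubgraph_iff_mem_edges]
      exact he
    by_cases hEe : E.Adj x y
    · obtain ⟨w, Z, hZ, hl, he, -⟩ := hE.priv s(x, y) hEe
      exact ⟨w, Z, hZ, hl.trans hsK, he⟩
    · have h1 : (G \ E).Adj x y := ⟨hxy, hEe⟩
      by_cases h2 : (cyc (G \ E)).Adj x y
      · obtain ⟨Z, hZ, he⟩ := cyc_cycle h2
        exact ⟨x, Z.mapLe hle, hZ.mapLe hle,
          by simpa using (B6.cycle_length_le hxκ Z hZ).trans hK, by simpa using he⟩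
      · have h3 : ((x, y) : V × V) = d₀ := hp (x, y) ⟨hxκ, h1, h2⟩ hxp
        refine ⟨w₀, Z₀, hZ₀, hZl, ?_⟩
        rw [← h3] at hZe
        exact hZe
  · -- Case B
    push Not at hA
    have hEκ : ∀ x ∈ κ.supp, ∀ y, E.Adj x y → y ∈ κ.supp := by
      intro x hx y hxy
      by_contra hy
      obtain ⟨w, Z, hZ, hl, he, hpr⟩ := hE.priv s(x, y) hxy
      obtain ⟨a, b, ha, hb', hab, hne⟩ := B6.second_crossing hx hy Z hZ he
      have hGab : G.Adj a b := Z.adj_of_mem_edges hab
      have hEab : ¬ E.Adj a b := fun h => hne (hpr _ hab h)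
      have hnc : ¬ (cyc (G \ E)).Adj a b := fun h => hb' (B6.mem_of_adj ha h)
      exact hA (a, b) ⟨ha, ⟨hGab, hEab⟩, hnc⟩ w Z hZ (hl.trans hsK) hab
    set G' := B6.ind G κ.supp with hG'
    have hG'le : G' ≤ G := fun x y h => h.1
    have hHadj : ∀ {x y}, x ∈ κ.supp → (cyc (G \ E)).Adj x y → G'.Adj x y := fun hx h =>
      ⟨hle h, hx, B6.mem_of_adj hx h⟩
    have hsupp : G'.support = κ.supp := by
      ext x
      constructor
      · rintro ⟨y, h⟩
        exact h.2.1
      · intro hx
        obtain ⟨y, hy⟩ := B6.mem_support hnt hx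
        exact ⟨y, hHadj hx hy⟩
    have hdeg2 : ∀ v ∈ G'.support, 2 ≤ (G'.neighborSet v).ncard := by
      intro v hv
      rw [hsupp] at hv
      refine (two_le_cyc (B6.mem_support hnt hv)).trans (Set.ncard_le_ncard ?_ (Set.toFinite _))
      intro y hy
      exact hHadj hv hy
    have hex : ∀ v ∈ ({v | v ∈ G'.support ∧ (G'.neighborSet v).ncard = 2} : Set V),
        ∃ y, (v, y) ∈ BD := by
      rintro v ⟨hv, h2⟩
      rw [hsupp] at hv
      by_contra hno
      push Not at hno
      have hsub : G.neighborSet v ⊆ G'.neighborSet v := by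
        intro y hy
        have hGy : G.Adj v y := hy
        refine ⟨hGy, hv, ?_⟩
        by_cases hEe : E.Adj v y
        · exact hEκ v hv y hEe
        · by_contra hyκ
          exact hno y ⟨hv, ⟨hGy, hEe⟩, fun h => hyκ (B6.mem_of_adj hv h)⟩
      have := Set.ncard_le_ncard hsub (Set.toFinite _)
      rw [hκ v hv, h2] at this
      omega
    have hcard : ({v | v ∈ G'.support ∧ (G'.neighborSet v).ncard = 2} : Set V).ncard ≤ 2 := by
      refine le_trans ?_ hBDcard
      choose! f hf using hex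
      refine Set.ncard_le_ncard_of_injOn (fun v => (v, f v)) (fun v hv => hf v hv) ?_
        (Set.toFinite _)
      intro a _ b _ hab
      exact congrArg Prod.fst hab
    have hne : G'.support.Nonempty := by
      rw [hsupp]; exact hnt.nonempty
    have := chorded_of_degrees G' hne hdeg2 hcard
    refine this.mono hG'le ?_
    rw [hsupp]
    omega

end Pool.Agent.H40.CL
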