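import Pool.Agent.H40.CK.B8

/-!
# CL / C8: the degree-two vertices all of whose edges are bridges, with bad vertices

Let `T = T2 G \ Bad`.  Same proof as `Pool.Agent.H40.CK.T2_bound` (file CK/B8.lean, copy it) with `T` in place
of `T2 G`: for `v ∈ T` walk `x_0 = v, x_1, ...` as long as `x_i ∈ T`; by `hchain` (all `x_i ∈ T` are not bad
and have degree two) some `k ≤ m` is the first index with `x_k ∉ T`, and `(x_k, x_{k-1})` is a dart with first
vertex outside `T` and second vertex in `T`.  So `#T ≤ m * #{(u,v) | G.Adj u v, u ∉ T, v ∈ T}`.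
Such a dart either has `u ∉ T2 G` (then it is in `ent G`) or `u ∈ T2 G ∩ Bad` (degree two): at most
`2 #Bad` darts.  Hence `#(T2 G) ≤ #Bad + #T ≤ #Bad + m (#(ent G) + 2 #Bad)`.
-/

namespace Pool.Agent.H40.CL

open SimpleGraph Pool.Agent.H40.CK

variable {V : Type*}

private theorem c8_other_spec {G : SimpleGraph V} {a b : V} (hb : (G.neighborSet b).ncard = 2) :
    G.Adj b (b8_other G a b) ∧ b8_other G a b ≠ a := by
  have h : ∃ c, G.Adj b c ∧ c ≠ a := by
    obtain ⟨p, q, hpq, hs⟩ := Set.ncard_eq_two.1 hb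
    have hp : G.Adj b p := by
      have : p ∈ G.neighborSet b := by rw [hs]; simp
      exact this
    have hq : G.Adj b q := by
      have : q ∈ G.neighborSet b := by rw [hs]; simp
      exact this
    by_cases hpa : p = a
    · exact ⟨q, hq, fun hqa => hpq (hpa.trans hqa.symm)⟩
    · exact ⟨p, hp, hpa⟩
  unfold b8_other
  rw [dif_pos h]
  exact h.choose_spec

private theorem c8_other_unique {G : SimpleGraph V} {a b c : V}
    (hb : (G.neighborSet b).ncard = 2) (hab : G.Adj b a) (hc : G.Adj b c) (hca : c ≠ a) :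
    b8_other G a b = c := by
  obtain ⟨h1, h2⟩ := c8_other_spec (a := a) hb
  obtain ⟨p, q, hpq, hs⟩ := Set.ncard_eq_two.1 hb
  have k1 : a ∈ G.neighborSet b := hab
  have k2 : c ∈ G.neighborSet b := hc
  have k3 : b8_other G a b ∈ G.neighborSet b := h1
  rw [hs] at k1 k2 k3
  simp only [Set.mem_insert_iff, Set.mem_singleton_iff] at k1 k2 k3
  rcases k1 with k1 | k1 <;> rcases k2 with k2 | k2 <;> rcases k3 with k3 | k3
  · exact k3.trans k2.symm
  · exact absurd (k2.trans k1.symm) hca
  · exact absurd (k3.trans k1.symm) h2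
  · exact k3.trans k2.symm
  · exact k3.trans k2.symm
  · exact absurd (k3.trans k1.symm) h2
  · exact absurd (k2.trans k1.symm) hca
  · exact k3.trans k2.symm

/-- the walk -/
private noncomputable def c8_walk (G : SimpleGraph V) (v w : V) : ℕ → V × V
  | 0 => (v, w)
  | i + 1 => ((c8_walk G v w i).2, b8_other G (c8_walk G v w i).1 (c8_walk G v w i).2)

private theorem c8_walk_fst (G : SimpleGraph V) (v w : V) (i : ℕ) :
    (c8_walk G v w (i + 1)).1 = (c8_walk G v w i).2 := rfl

private theorem c8_inj {G : SimpleGraph V} {x : ℕ → V} {m : ℕ}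
    (hadj : ∀ i < m, G.Adj (x i) (x (i + 1))) (hT : ∀ i ≤ m, x i ∈ T2 G)
    (hnb : ∀ i, i + 2 ≤ m → x (i + 2) ≠ x i) :
    ∀ j ≤ m, ∀ i < j, x i ≠ x j := by
  intro j
  induction j using Nat.strong_induction_on with
  | _ j ih =>
    intro hj i hij heq
    -- distinctness below `j`
    have hdist : ∀ p < j, ∀ q < j, x p = x q → p = q := by
      intro p hp q hq hpq
      rcases lt_trichotomy p q with h | h | h
      · exact absurd hpq (ih q hq (by omega) p h)
      · exact h
      · exact absurd hpq.symm (ih p hp (by omega) q h)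
    have hreach : ∀ l, i + 1 ≤ l → l ≤ j →
        (G \ fromEdgeSet {s(x i, x (i + 1))}).Reachable (x (i + 1)) (x l) := by
      intro l hl
      induction l, hl using Nat.le_induction with
      | base => intro _; exact Reachable.refl _
      | succ l hl ih2 =>
        intro hlj
        refine (ih2 (by omega)).trans (Adj.reachable ?_)
        rw [sdiff_adj]
        refine ⟨hadj l (by omega), ?_⟩
        rw [fromEdgeSet_adj]
        rintro ⟨hmem, -⟩
        rw [Set.mem_singleton_iff, Sym2.eq_iff] at hmem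
        rcases hmem with ⟨h1, -⟩ | ⟨h1, h2⟩
        · have := hdist l (by omega) i (by omega) h1
          omega
        · have h3 := hdist l (by omega) (i + 1) (by omega) h1
          subst h3
          exact hnb i (by omega) h2
    have h1 : (G \ fromEdgeSet {s(x i, x (i + 1))}).Reachable (x i) (x (i + 1)) := by
      have := (hreach j (by omega) le_rfl).symm
      rwa [← heq] at this
    have h2 := adj_and_reachable_delete_edges_iff_exists_cycle.1 ⟨hadj i (by omega), h1⟩
    have h3 : (cyc G).Adj (x i) (x (i + 1)) := h2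
    exact (hT i (by omega)).1 ⟨_, h3⟩

private theorem c8_exists {G : SimpleGraph V} {m : ℕ} (Bad : Set V)
    (hchain : ∀ x : ℕ → V, (∀ i ≤ m, x i ∉ Bad) → (∀ i ≤ m, ∀ j ≤ m, x i = x j → i = j) →
      (∀ i < m, G.Adj (x i) (x (i + 1))) → (∀ i ≤ m, (G.neighborSet (x i)).ncard = 2) → False)
    {v : V} (hv : v ∈ T2 G \ Bad) :
    ∃ d ∈ {d : V × V | G.Adj d.1 d.2 ∧ d.1 ∉ T2 G \ Bad ∧ d.2 ∈ T2 G \ Bad}, ∃ j < m, ((fun p : V × V => (p.2, b8_other G p.1 p.2))^[j] d).2 = v := by
  obtain ⟨w, q, hwq, hs⟩ := Set.ncard_eq_two.1 hv.1.2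
  have hvw : G.Adj v w := by
    have : w ∈ G.neighborSet v := by rw [hs]; simp
    exact this
  set x : ℕ → V := fun i => (c8_walk G v w i).1 with hx
  have hx0 : x 0 = v := rfl
  have hx1 : x 1 = w := rfl
  have hx2 : ∀ i, x (i + 2) = b8_other G (x i) (x (i + 1)) := fun i => rfl
  have hA : ∀ n, (∀ i < n, x i ∈ T2 G \ Bad) → ∀ i < n, G.Adj (x i) (x (i + 1)) := by
    intro n hn i
    induction i with
    | zero => intro _; exact hvw
    | succ i ih =>
      intro hi
      rw [hx2]
      exact (c8_other_spec (hn (i + 1) hi).1.2).1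
  have hB : ∀ i, x (i + 1) ∈ T2 G \ Bad → x (i + 2) ≠ x i := by
    intro i hi
    rw [hx2]
    exact (c8_other_spec hi.1.2).2
  have hex : ∃ k ≤ m, x k ∉ T2 G \ Bad := by
    by_contra hcon
    have hcon : ∀ k ≤ m, x k ∈ T2 G \ Bad := by
      intro k hk
      by_contra h
      exact hcon ⟨k, hk, h⟩
    have hadj : ∀ i < m, G.Adj (x i) (x (i + 1)) := by
      intro i hi
      exact hA (i + 1) (fun j hj => hcon j (by omega)) i (by omega)
    have hinj := c8_inj hadj (fun i hi => (hcon i hi).1) (fun i hi => hB i (hcon (i + 1) (by omega)))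
    refine hchain x (fun i hi => (hcon i hi).2) ?_ hadj (fun i hi => (hcon i hi).1.2)
    intro i hi j hj hij
    rcases lt_trichotomy i j with h | h | h
    · exact absurd hij (hinj j hj i h)
    · exact h
    · exact absurd hij.symm (hinj i hi j h)
  classical
  obtain ⟨k, ⟨hkm, hk⟩, hmin⟩ : ∃ k, (k ≤ m ∧ x k ∉ T2 G \ Bad) ∧ ∀ i < k, x i ∈ T2 G \ Bad := by
    refine ⟨Nat.find hex, Nat.find_spec hex, fun i hi => ?_⟩
    by_contra hcon
    have h1 := Nat.find_spec hex
    exact Nat.find_min hex hi ⟨by omega, hcon⟩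
  have hk0 : 0 < k := by
    rcases Nat.eq_zero_or_pos k with h | h
    · subst h; exact absurd hv hk
    · exact h
  have hadj := hA k hmin
  refine ⟨(x k, x (k - 1)), ⟨?_, hk, hmin _ (by omega)⟩, k - 1, by omega, ?_⟩
  · have := hadj (k - 1) (by omega)
    rw [show k - 1 + 1 = k by omega] at this
    exact this.symm
  · have hstep : ∀ j, j ≤ k - 1 →
        ((fun p : V × V => (p.2, b8_other G p.1 p.2))^[j] (x k, x (k - 1))) =
          (x (k - j), x (k - 1 - j)) := by
      intro j
      induction j with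
      | zero => intro _; rfl
      | succ j ih =>
        intro hj
        rw [Function.iterate_succ_apply', ih (by omega)]
        have e1 : k - (j + 1) = k - 1 - j := by omega
        rw [e1]
        refine Prod.ext rfl ?_
        show b8_other G (x (k - j)) (x (k - 1 - j)) = x (k - 1 - (j + 1))
        obtain ⟨i, hi⟩ : ∃ i, k - 1 - (j + 1) = i := ⟨_, rfl⟩
        have e2 : k - 1 - j = i + 1 := by omega
        have e3 : k - j = i + 2 := by omega
        rw [hi, e2, e3]
        refine c8_other_unique (hmin (i + 1) (by omega)).1.2 (hadj (i + 1) (by omega))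
          (hadj i (by omega)).symm ?_
        exact (hB i (hmin (i + 1) (by omega))).symm
    rw [hstep (k - 1) le_rfl]
    show x (k - 1 - (k - 1)) = v
    rw [Nat.sub_self, hx0]

private theorem c8_darts [Finite V] {G : SimpleGraph V} (B : Set V)
    (hB : ∀ b ∈ B, (G.neighborSet b).ncard = 2) :
    {d : V × V | d.1 ∈ B ∧ G.Adj d.1 d.2}.ncard ≤ B.ncard * 2 := by
  classical
  have := Fintype.ofFinite V
  rw [Set.ncard_eq_toFinset_card', Set.ncard_eq_toFinset_card']
  refine le_trans (Finset.card_le_card (t := B.toFinset.biUnion fun b =>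
    ((G.neighborSet b).toFinset).image fun c => (b, c)) ?_) (Finset.card_biUnion_le_card_mul _ _ _ ?_)
  · rintro ⟨b, c⟩ h
    rw [Set.mem_toFinset] at h
    rw [Finset.mem_biUnion]
    refine ⟨b, Set.mem_toFinset.2 h.1, Finset.mem_image.2 ⟨c, ?_, rfl⟩⟩
    rw [Set.mem_toFinset]
    exact h.2
  · intro b hb
    rw [Set.mem_toFinset] at hb
    refine Finset.card_image_le.trans ?_
    have h1 := hB b hb
    rw [Set.ncard_eq_toFinset_card'] at h1
    exact h1.le

theorem T2_bound [Finite V] {G : SimpleGraph V} {m : ℕ} (hm : 1 ≤ m) (Bad : Set V)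
    (hchain : ∀ x : ℕ → V, (∀ i ≤ m, x i ∉ Bad) → (∀ i ≤ m, ∀ j ≤ m, x i = x j → i = j) →
      (∀ i < m, G.Adj (x i) (x (i + 1))) → (∀ i ≤ m, (G.neighborSet (x i)).ncard = 2) → False) :
    (T2 G).ncard ≤ Bad.ncard + m * ((ent G).ncard + 2 * Bad.ncard) := by
  classical
  let f : V × V → V × V := fun p => (p.2, b8_other G p.1 p.2)
  set E : Set (V × V) := {d : V × V | G.Adj d.1 d.2 ∧ d.1 ∉ T2 G \ Bad ∧ d.2 ∈ T2 G \ Bad} with hE
  have hsub : T2 G \ Bad ⊆ (fun q : ℕ × (V × V) => (f^[q.1] q.2).2) '' (Set.Iio m ×ˢ E) := by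
    intro v hv
    obtain ⟨d, hd, j, hj, h⟩ := c8_exists Bad hchain hv
    exact ⟨(j, d), ⟨hj, hd⟩, h⟩
  have hfin : (Set.Iio m ×ˢ E).Finite := (Set.finite_Iio m).prod (Set.toFinite _)
  have h1 : (T2 G \ Bad).ncard ≤ m * E.ncard := by
    calc (T2 G \ Bad).ncard ≤ ((fun q : ℕ × (V × V) => (f^[q.1] q.2).2) '' (Set.Iio m ×ˢ E)).ncard :=
          Set.ncard_le_ncard hsub (hfin.image _)
      _ ≤ (Set.Iio m ×ˢ E).ncard := Set.ncard_image_le hfin
      _ = m * E.ncard := by
          rw [Set.ncard_prod]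
          congr 1
          rw [Set.ncard_eq_toFinset_card']
          simp
  have h2 : E.ncard ≤ (ent G).ncard + 2 * Bad.ncard := by
    have h3 : E ⊆ ent G ∪ {d : V × V | d.1 ∈ T2 G ∩ Bad ∧ G.Adj d.1 d.2} := by
      rintro ⟨u, v⟩ ⟨ha, hu, hv⟩
      by_cases hu2 : u ∈ T2 G
      · right
        refine ⟨⟨hu2, ?_⟩, ha⟩
        by_contra hub
        exact hu ⟨hu2, hub⟩
      · left
        exact ⟨ha, hu2, hv.1⟩
    have h4 := c8_darts (G := G) (T2 G ∩ Bad) (fun b hb => hb.1.2)
    have h5 : (T2 G ∩ Bad).ncard ≤ Bad.ncard := Set.ncard_le_ncard Set.inter_subset_right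
      (Set.toFinite _)
    have h6 := (Set.ncard_le_ncard h3 (Set.toFinite _)).trans (Set.ncard_union_le _ _)
    omega
  have h7 : (T2 G).ncard ≤ Bad.ncard + (T2 G \ Bad).ncard := by
    have h8 : T2 G ⊆ Bad ∪ (T2 G \ Bad) := by
      intro v hv
      by_cases hb : v ∈ Bad
      · exact Or.inl hb
      · exact Or.inr ⟨hv, hb⟩
    exact (Set.ncard_le_ncard h8 (Set.toFinite _)).trans (Set.ncard_union_le _ _)
  have h9 : m * E.ncard ≤ m * ((ent G).ncard + 2 * Bad.ncard) := Nat.mul_le_mul_left _ h2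
  omega

end Pool.Agent.H40.CL
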