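import Pool.Agent.H40.CK.B5
import Pool.Agent.H40.CK.B9

/-!
# CL / C9: few vertices are outside `cyc G₁`, with bad vertices

Modify `Pool.Agent.H40.CK.T_bound` (file CK/B9.lean).  `H = cyc G₁`, `b κ = bdeg G₁ κ`,
`β = Bad.ncard`, `T_i` = vertices outside `H.support` of `G₁`-degree `i` (`i = 0, 1, 2, 3`);
`T_0 ∪ T_1 ⊆ Bad`.  `∑_κ (b κ - 2) < 0`.  Let `ν` be the number of nontrivial `κ` with `b κ ≤ 2`.  Then
`#T_3 + ∑_{nontrivial, b ≥ 3} (b - 2) < 2 (#T_0 + #T_1) + 2 ν ≤ 2 β + 2 ν`.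
`#(ent G₁) ≤` number of bridge-darts `(u, v)` with `u ∉ T2` `≤ 3 #T_3 + #T_1 + ∑_{nontrivial} b
≤ 3 #T_3 + β + 3 ∑_{b ≥ 3} (b - 2) + 2 ν ≤ 7 β + 8 ν`.
`#H.supportᶜ ≤ β + #T_2 + #T_3 ≤ β + β + 6 s (7 β + 8 ν + 2 β) + 2 β + 2 ν ≤ 58 s β + 50 s ν`.
`ν ≤ β + #H.support / (6000 s)`: at most `β` of the components contain a bad vertex, the others have more
than `6000 s` vertices.  So `#H.supportᶜ ≤ 108 s β + #H.support / 120`, and
`10^6 s β ≤ #V = #H.support + #H.supportᶜ` gives `100 #H.supportᶜ ≤ #H.support`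
(and `H.support ≠ ∅` as `V` is nonempty).
-/

namespace Pool.Agent.H40.CL

open SimpleGraph Pool.Agent.H40.CK

variable {V : Type*}

theorem T_bound [Finite V] [Nonempty V] {G₁ : SimpleGraph V} (Bad : Set V)
    (hdeg : ∀ v, (G₁.neighborSet v).ncard ≤ 3)
    (hdeg2 : ∀ v, v ∉ Bad → 2 ≤ (G₁.neighborSet v).ncard) {s : ℕ} (hs : 1 ≤ s)
    (hbig : ∀ κ : (cyc G₁).ConnectedComponent, κ.supp.Nontrivial → bdeg G₁ κ ≤ 2 →
      (∀ v ∈ κ.supp, v ∉ Bad) → 6000 * s < κ.supp.ncard)
    (hT2 : (T2 G₁).ncard ≤ Bad.ncard + 6 * s * ((ent G₁).ncard + 2 * Bad.ncard))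
    (hBad : 10 ^ 6 * s * Bad.ncard ≤ Nat.card V) :
    100 * ((cyc G₁).supportᶜ).ncard ≤ (cyc G₁).support.ncard ∧ (cyc G₁).support.Nonempty := by
  classical
  have := Fintype.ofFinite V
  set H : SimpleGraph V := cyc G₁ with hH
  have := Fintype.ofFinite H.ConnectedComponent
  set c : V → H.ConnectedComponent := H.connectedComponentMk with hc
  have hbr : (G₁.edgeSet \ H.edgeSet).ncard < Fintype.card H.ConnectedComponent := by
    rw [← Nat.card_eq_fintype_card]
    exact card_bridges_lt G₁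
  have hsum : ∑ κ : H.ConnectedComponent, bdeg G₁ κ = 2 * (G₁.edgeSet \ H.edgeSet).ncard :=
    sum_bdeg G₁
  set 𝒩 : Finset H.ConnectedComponent := Finset.univ.filter fun κ => κ.supp.Nontrivial with h𝒩
  set 𝒯 : Finset H.ConnectedComponent := Finset.univ.filter fun κ => ¬ κ.supp.Nontrivial with h𝒯
  set N2 : Finset H.ConnectedComponent := 𝒩.filter fun κ => bdeg G₁ κ ≤ 2 with hN2
  set N3 : Finset H.ConnectedComponent := 𝒩.filter fun κ => ¬ bdeg G₁ κ ≤ 2 with hN3
  set U : Finset V := Finset.univ.filter fun v => v ∉ H.support with hU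
  set U2 : Finset V := U.filter fun v => (G₁.neighborSet v).ncard = 2 with hU2
  set UR : Finset V := U.filter fun v => ¬ (G₁.neighborSet v).ncard = 2 with hUR
  set U3 : Finset V := UR.filter fun v => (G₁.neighborSet v).ncard = 3 with hU3
  set U1 : Finset V := UR.filter fun v => ¬ (G₁.neighborSet v).ncard = 3 with hU1
  have hUmem : ∀ v, v ∈ U ↔ v ∉ H.support := fun v => by simp [hU]
  -- the bridge darts
  set Bd : H.ConnectedComponent → Finset (V × V) := fun κ =>
    Finset.univ.filter fun d => d.1 ∈ κ.supp ∧ G₁.Adj d.1 d.2 ∧ ¬ H.Adj d.1 d.2 with hBd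
  have hBdc : ∀ κ, (Bd κ).card = bdeg G₁ κ := by
    intro κ
    rw [← Set.ncard_coe_finset]
    unfold bdeg
    congr 1
    ext d
    simp only [hBd, Finset.coe_filter, Finset.mem_univ, true_and]
    rfl
  -- degree of trivial components
  have htriv : ∀ v ∈ U, bdeg G₁ (c v) = (G₁.neighborSet v).ncard := by
    intro v hv
    have hv' := (hUmem v).1 hv
    have himg : {d : V × V | d.1 ∈ (c v).supp ∧ G₁.Adj d.1 d.2 ∧ ¬ (cyc G₁).Adj d.1 d.2} =
        (fun w => (v, w)) '' G₁.neighborSet v := by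
      ext d
      obtain ⟨x, y⟩ := d
      simp only [Set.mem_ofPred_eq, Set.mem_image, mem_neighborSet, Prod.mk.injEq]
      rw [hc, B9_supp_of_isolated hv', Set.mem_singleton_iff]
      constructor
      · rintro ⟨rfl, h1, _⟩
        exact ⟨y, h1, rfl, rfl⟩
      · rintro ⟨w, h1, rfl, rfl⟩
        exact ⟨rfl, h1, fun h => hv' ⟨_, h⟩⟩
    unfold bdeg
    rw [himg]
    exact Set.ncard_image_of_injective _ (fun a b h => (Prod.ext_iff.1 h).2)
  have hinj : Set.InjOn c (U : Set V) := by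
    intro v hv w hw hvw
    have h1 := B9_supp_of_isolated ((hUmem v).1 hv)
    have h2 : w ∈ (c v).supp := by rw [hvw]; simp [hc]
    rw [hc, h1] at h2
    exact (Set.mem_singleton_iff.1 h2).symm
  have h𝒯img : 𝒯 = U.image c := by
    ext κ
    simp only [h𝒯, Finset.mem_filter, Finset.mem_univ, true_and, Finset.mem_image]
    constructor
    · intro h
      obtain ⟨v, rfl⟩ := κ.exists_rep
      refine ⟨v, (hUmem v).2 fun hv => h (B9_nontrivial_of_mem hv), rfl⟩
    · rintro ⟨v, hv, rfl⟩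
      rw [hc, B9_supp_of_isolated ((hUmem v).1 hv)]
      exact Set.not_nontrivial_singleton
  have hsum𝒯 : ∑ κ ∈ 𝒯, bdeg G₁ κ = 2 * U2.card + ∑ v ∈ UR, (G₁.neighborSet v).ncard := by
    rw [h𝒯img, Finset.sum_image hinj, Finset.sum_congr rfl htriv,
      ← Finset.sum_filter_add_sum_filter_not U (fun v => (G₁.neighborSet v).ncard = 2)]
    congr 1
    rw [Finset.sum_congr rfl (g := fun _ => 2) (fun v hv => (Finset.mem_filter.1 hv).2)]
    simp [mul_comm, hU2]
  have hU3deg : ∀ v ∈ U3, (G₁.neighborSet v).ncard = 3 := fun v hv => (Finset.mem_filter.1 hv).2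
  set S1 : ℕ := ∑ v ∈ U1, (G₁.neighborSet v).ncard with hS1
  have hsumUR : ∑ v ∈ UR, (G₁.neighborSet v).ncard = 3 * U3.card + S1 := by
    rw [← Finset.sum_filter_add_sum_filter_not UR (fun v => (G₁.neighborSet v).ncard = 3)]
    congr 1
    rw [← hU3, Finset.sum_congr rfl hU3deg]; simp [mul_comm]
  have hcardU : U.card = U2.card + (U3.card + U1.card) := by
    have h1 : U2.card + UR.card = U.card := Finset.card_filter_add_card_filter_not (s := U)
      (fun v => (G₁.neighborSet v).ncard = 2)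
    have h2 : U3.card + U1.card = UR.card := Finset.card_filter_add_card_filter_not (s := UR)
      (fun v => (G₁.neighborSet v).ncard = 3)
    omega
  have hβc : Bad.ncard = (Finset.univ.filter fun v => v ∈ Bad).card := by
    rw [← Set.ncard_coe_finset]
    congr 1
    ext v; simp
  have hU1 : U1.card ≤ Bad.ncard := by
    rw [hβc]
    apply Finset.card_le_card
    intro v hv
    have h1 := Finset.mem_filter.1 hv
    have h2 := Finset.mem_filter.1 h1.1
    rw [Finset.mem_filter]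
    refine ⟨Finset.mem_univ _, ?_⟩
    by_contra hcon
    have h3 := hdeg2 v hcon
    have h4 := hdeg v
    have h5 := h1.2
    have h6 := h2.2
    omega
  have hcard𝒯 : 𝒯.card = U.card := by rw [h𝒯img, Finset.card_image_of_injOn hinj]
  have hcard𝒩 : 𝒩.card = N2.card + N3.card :=
    (Finset.card_filter_add_card_filter_not (s := 𝒩) fun κ => bdeg G₁ κ ≤ 2).symm
  have hcard𝒦 : Fintype.card H.ConnectedComponent = 𝒩.card + 𝒯.card := by
    rw [← Finset.card_univ]
    exact (Finset.card_filter_add_card_filter_not (s := Finset.univ)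
      fun κ : H.ConnectedComponent => κ.supp.Nontrivial).symm
  have hsplit : ∑ κ : H.ConnectedComponent, bdeg G₁ κ =
      (∑ κ ∈ 𝒩, bdeg G₁ κ) + ∑ κ ∈ 𝒯, bdeg G₁ κ :=
    (Finset.sum_filter_add_sum_filter_not Finset.univ
      (fun κ : H.ConnectedComponent => κ.supp.Nontrivial) _).symm
  have hsplit𝒩 : ∑ κ ∈ 𝒩, bdeg G₁ κ = (∑ κ ∈ N2, bdeg G₁ κ) + ∑ κ ∈ N3, bdeg G₁ κ :=
    (Finset.sum_filter_add_sum_filter_not 𝒩 (fun κ => bdeg G₁ κ ≤ 2) _).symm
  have hN3b : 3 * N3.card ≤ ∑ κ ∈ N3, bdeg G₁ κ := by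
    have := Finset.card_nsmul_le_sum N3 (fun κ => bdeg G₁ κ) 3 (fun κ hκ => by
      have := (Finset.mem_filter.1 hκ).2
      omega)
    simpa [mul_comm] using this
  -- the entering darts
  have hent : (ent G₁).ncard ≤ (∑ κ ∈ 𝒩, bdeg G₁ κ) + (3 * U3.card + S1) := by
    have hsub : ent G₁ ⊆ ((𝒩.biUnion Bd ∪ UR.biUnion fun v => Bd (c v) : Finset (V × V)) :
        Set (V × V)) := by
      rintro ⟨x, y⟩ ⟨h1, h2, h3⟩
      simp only at h1 h2 h3
      have hnH : ¬ H.Adj x y := fun h => h3.1 ⟨x, h.symm⟩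
      have hmemBd : (x, y) ∈ Bd (c x) := by
        simp only [hBd, Finset.mem_filter, Finset.mem_univ, true_and]
        exact ⟨by simp [hc], h1, hnH⟩
      rw [Finset.mem_coe, Finset.mem_union, Finset.mem_biUnion, Finset.mem_biUnion]
      by_cases hx : x ∈ H.support
      · exact Or.inl ⟨c x, by simp only [h𝒩, Finset.mem_filter, Finset.mem_univ, true_and]
                              exact B9_nontrivial_of_mem hx, hmemBd⟩
      · refine Or.inr ⟨x, ?_, hmemBd⟩
        simp only [hUR, Finset.mem_filter]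
        exact ⟨(hUmem x).2 hx, fun h => h2 ⟨hx, h⟩⟩
    have h1 := Set.ncard_le_ncard hsub (Set.toFinite _)
    rw [Set.ncard_coe_finset] at h1
    refine h1.trans ((Finset.card_union_le _ _).trans (Nat.add_le_add ?_ ?_))
    · refine Finset.card_biUnion_le.trans (le_of_eq ?_)
      exact Finset.sum_congr rfl fun κ _ => hBdc κ
    · refine Finset.card_biUnion_le.trans (le_of_eq ?_)
      rw [← hsumUR]
      refine Finset.sum_congr rfl fun v hv => ?_
      rw [hBdc, htriv v (Finset.mem_filter.1 hv).1]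
  -- the components with a bad vertex
  set NB : Finset H.ConnectedComponent := N2.filter fun κ => ∃ v ∈ κ.supp, v ∈ Bad with hNB
  set NG : Finset H.ConnectedComponent := N2.filter fun κ => ¬ ∃ v ∈ κ.supp, v ∈ Bad with hNG
  have hNBG : N2.card = NB.card + NG.card :=
    (Finset.card_filter_add_card_filter_not (s := N2)
      fun κ : H.ConnectedComponent => ∃ v ∈ κ.supp, v ∈ Bad).symm
  have hNB' : NB.card ≤ Bad.ncard := by
    rw [hβc]
    have hex : ∀ κ : H.ConnectedComponent, ∃ v : V, κ ∈ NB → v ∈ κ.supp ∧ v ∈ Bad := by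
      intro κ
      by_cases hκ : κ ∈ NB
      · obtain ⟨v, hv1, hv2⟩ := (Finset.mem_filter.1 hκ).2
        exact ⟨v, fun _ => ⟨hv1, hv2⟩⟩
      · exact ⟨Classical.arbitrary V, fun h => absurd h hκ⟩
    choose f hf using hex
    refine Finset.card_le_card_of_injOn f (fun κ hκ => ?_) (fun κ hκ κ' hκ' h => ?_)
    · rw [Finset.mem_coe, Finset.mem_filter]
      exact ⟨Finset.mem_univ _, (hf κ hκ).2⟩
    · have h1 := (hf κ hκ).1
      have h2 := (hf κ' hκ').1
      rw [ConnectedComponent.mem_supp_iff] at h1 h2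
      rw [← h1, ← h2, h]
  -- the large components
  have hlarge : NG.card * (6000 * s) ≤ H.support.ncard := by
    set Sp : H.ConnectedComponent → Finset V := fun κ => Finset.univ.filter fun v => v ∈ κ.supp
      with hSp
    have hSpc : ∀ κ, (Sp κ).card = κ.supp.ncard := by
      intro κ
      rw [← Set.ncard_coe_finset]
      congr 1
      ext v; simp [hSp]
    have hdisj : ∀ κ ∈ NG, ∀ κ' ∈ NG, κ ≠ κ' → Disjoint (Sp κ) (Sp κ') := by
      intro κ _ κ' _ hne
      rw [Finset.disjoint_left]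
      intro v h1 h2
      simp only [hSp, Finset.mem_filter, Finset.mem_univ, true_and,
        ConnectedComponent.mem_supp_iff] at h1 h2
      exact hne (h1.symm.trans h2)
    have h1 : (NG.biUnion Sp).card = ∑ κ ∈ NG, (Sp κ).card := Finset.card_biUnion hdisj
    have h2 : ((NG.biUnion Sp : Finset V) : Set V) ⊆ H.support := by
      intro v hv
      rw [Finset.mem_coe, Finset.mem_biUnion] at hv
      obtain ⟨κ, hκ, hv⟩ := hv
      simp only [hSp, Finset.mem_filter, Finset.mem_univ, true_and] at hv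
      have hnt : κ.supp.Nontrivial :=
        (Finset.mem_filter.1 (Finset.mem_filter.1 (Finset.mem_filter.1 hκ).1).1).2
      exact B9_supp_subset hnt hv
    have h3 := Set.ncard_le_ncard h2 (Set.toFinite _)
    rw [Set.ncard_coe_finset, h1] at h3
    refine le_trans ?_ h3
    have := Finset.card_nsmul_le_sum NG (fun κ => (Sp κ).card) (6000 * s) (fun κ hκ => by
      have hκ' := Finset.mem_filter.1 hκ
      have hκ'' := Finset.mem_filter.1 hκ'.1
      rw [hSpc]
      refine (hbig κ (Finset.mem_filter.1 hκ''.1).2 hκ''.2 fun v hv hvB => ?_).le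
      exact hκ'.2 ⟨v, hv, hvB⟩)
    simpa using this
  have hcompl : (H.supportᶜ).ncard = U.card := by
    rw [← Set.ncard_coe_finset]
    congr 1
    ext v; simp [hU]
  have hcardV : Nat.card V = H.support.ncard + (H.supportᶜ).ncard :=
    (Set.ncard_add_ncard_compl H.support).symm
  have hVpos : 0 < Nat.card V := Nat.card_pos
  have hT2c : (T2 G₁).ncard = U2.card := by
    rw [← Set.ncard_coe_finset]
    congr 1
    ext v
    simp only [T2, hU2, hU, Finset.coe_filter, Finset.mem_filter, Finset.mem_univ, true_and,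
      Set.mem_ofPred_eq]
    rfl
  rw [hT2c] at hT2
  set ν := N2.card with hν
  set β := Bad.ncard with hβ
  rw [hsplit, hsplit𝒩, hsum𝒯, hsumUR] at hsum
  rw [hcard𝒦, hcard𝒩, hcard𝒯, hcardU] at hbr
  rw [hsplit𝒩] at hent
  have hent8 : (ent G₁).ncard ≤ 6 * ν + 6 * β := by omega
  have hU3' : U3.card ≤ 2 * ν + 2 * β := by omega
  have hU2' : U2.card ≤ β + (36 * (s * ν) + 48 * (s * β)) := by
    calc U2.card ≤ β + 6 * s * ((ent G₁).ncard + 2 * β) := hT2
      _ ≤ β + 6 * s * ((6 * ν + 6 * β) + 2 * β) :=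
        Nat.add_le_add_left (Nat.mul_le_mul_left _ (Nat.add_le_add_right hent8 _)) _
      _ = β + (36 * (s * ν) + 48 * (s * β)) := by ring
  have hsν : ν ≤ s * ν := Nat.le_mul_of_pos_left ν hs
  have hsβ : β ≤ s * β := Nat.le_mul_of_pos_left β hs
  have hl : 6000 * (s * ν) ≤ 6000 * (s * β) + H.support.ncard := by
    calc 6000 * (s * ν) = NB.card * (6000 * s) + NG.card * (6000 * s) := by rw [hNBG]; ring
      _ ≤ β * (6000 * s) + H.support.ncard := Nat.add_le_add (Nat.mul_le_mul_right _ hNB') hlarge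
      _ = _ := by ring
  have hBad' : 1000000 * (s * β) ≤ Nat.card V := by
    calc 1000000 * (s * β) = 10 ^ 6 * s * β := by ring
      _ ≤ _ := hBad
  have hmain : 100 * (H.supportᶜ).ncard ≤ H.support.ncard := by
    rw [hcardV] at hBad'
    rw [hcompl] at hBad' ⊢
    rw [hcardU] at hBad' ⊢
    omega
  refine ⟨hmain, ?_⟩
  rw [← Set.ncard_pos (Set.toFinite _)]
  omega

end Pool.Agent.H40.CL
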