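import Pool.Agent.H40.CK.B13

/-!
# CL / D1: from nearly 3-regular subgraphs to the subcubic theorem

`Sub ε c` is the statement of the subcubic theorem (all vertices of the ambient type count): every graph
`G'` on a finite nonempty type with all degrees `≤ 3` and at most `ε n` vertices of degree `≠ 3`
has a cycle `C` with at least `c |C|` chords.

`nearly_of_sub`: let `X = ∅` in the first case and `X = {v ∈ W | H-degree of v > 3}` in the second case, and let
`G'` be the subgraph of `H` induced on the subtype `W \ X`.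
Case 1 (`H`-degrees `≤ 3` on `W`, `2 e(H) ≥ (3 - ε) |W|`): `∑_{v ∈ W} (3 - deg v) = 3 |W| - 2 e(H) ≤ ε |W|`
(handshake; `H.support ⊆ W`), so at most `ε |W|` vertices have degree `≠ 3`.
Case 2 (`H`-degrees `≥ 3`, `2 e(H) ≤ (3 + ε)|W|`): `∑_{v ∈ W} (deg v - 3) ≤ ε |W|`, so
`∑_{v ∈ X} deg v ≤ 4 ∑_{v ∈ X} (deg v - 3) ≤ 4 ε |W|` and `|X| ≤ ε |W|`; every vertex of `W \ X` has
degree three in `H`, and degree three in `G'` unless it is adjacent to `X`: at most `4 ε |W|` bad vertices, and
`|W \ X| ≥ (1 - ε)|W| ≥ |W| / 2`, so at most `8 ε |W \ X|` bad vertices.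
Apply the hypothesis with `8 ε ≤ ε'` and transfer the cycle to `G` by the inclusion
(`Pool.Agent.H40.CK.chords_map` in CK/B13.lean; see `subcubic_main` there).
-/

namespace Pool.Agent.H40.CL

open SimpleGraph Pool.Agent.H40.CK

universe u

/-- The subcubic theorem with constants `ε` and `c`. -/
def Sub (ε c : ℝ) : Prop :=
  ∀ (V : Type u) [Finite V] [Nonempty V] (G : SimpleGraph V), (∀ v, (G.neighborSet v).ncard ≤ 3) →
    (({v | (G.neighborSet v).ncard ≠ 3} : Set V).ncard : ℝ) ≤ ε * (Nat.card V : ℝ) →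
    ∃ (u : V) (C : G.Walk u u), C.IsCycle ∧ c * (C.length : ℝ) ≤ ((chords G C).ncard : ℝ)

theorem D1_ncard_neighbor {V : Type*} [Fintype V] [DecidableEq V] (H : SimpleGraph V)
    [DecidableRel H.Adj] (v : V) : (H.neighborSet v).ncard = H.degree v := by
  rw [← SimpleGraph.card_neighborSet_eq_degree, Set.ncard_eq_toFinset_card', Set.toFinset_card]

theorem D1_handshake {V : Type*} [Fintype V] [DecidableEq V] (H : SimpleGraph V)
    [DecidableRel H.Adj] (Wf : Finset V) (h : ∀ v, v ∉ Wf → (H.neighborSet v).ncard = 0) :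
    ∑ v ∈ Wf, (H.neighborSet v).ncard = 2 * H.edgeSet.ncard := by
  have h1 : H.edgeSet.ncard = H.edgeFinset.card := by
    rw [← SimpleGraph.coe_edgeFinset, Set.ncard_coe_finset]
  rw [h1, ← H.sum_degrees_eq_twice_card_edges,
    Finset.sum_subset (Finset.subset_univ Wf) (fun v _ hv => h v hv)]
  exact Finset.sum_congr rfl fun v _ => D1_ncard_neighbor H v

theorem nearly_of_sub {ε' ε c : ℝ} (hε : 0 < ε) (hε1 : ε ≤ 1 / 2) (hε' : 8 * ε ≤ ε')
    (h : Sub.{u} ε' c)
    {V : Type u} [Finite V] (G H : SimpleGraph V) (W : Set V) (hle : H ≤ G) (hW : W.Nonempty)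
    (hsupp : H.support ⊆ W)
    (hcase : ((∀ v ∈ W, (H.neighborSet v).ncard ≤ 3) ∧
        (3 - ε) * (W.ncard : ℝ) ≤ 2 * (H.edgeSet.ncard : ℝ)) ∨
      ((∀ v ∈ W, 3 ≤ (H.neighborSet v).ncard) ∧
        2 * (H.edgeSet.ncard : ℝ) ≤ (3 + ε) * (W.ncard : ℝ))) :
    ∃ (u : V) (C : G.Walk u u), C.IsCycle ∧ c * (C.length : ℝ) ≤ ((chords G C).ncard : ℝ) := by
  classical
  cases nonempty_fintype V
  set N : V → ℕ := fun v => (H.neighborSet v).ncard with hN
  set Wf : Finset V := W.toFinset with hWf
  have hWc : W.ncard = Wf.card := by rw [Set.ncard_eq_toFinset_card']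
  have hmW : ∀ v, v ∈ Wf ↔ v ∈ W := fun v => Set.mem_toFinset
  have hout : ∀ v, v ∉ Wf → (H.neighborSet v).ncard = 0 := by
    intro v hv
    rw [Set.ncard_eq_zero (Set.toFinite _), Set.eq_empty_iff_forall_notMem]
    intro w hw
    exact hv ((hmW v).2 (hsupp ⟨w, hw⟩))
  have hsum : ∑ v ∈ Wf, N v = 2 * H.edgeSet.ncard := D1_handshake H Wf hout
  have hsumR : ∑ v ∈ Wf, (N v : ℝ) = 2 * (H.edgeSet.ncard : ℝ) := by
    exact_mod_cast hsum
  -- the vertices of large degree and the rest
  set Xf : Finset V := Wf.filter fun v => 3 < N v with hXf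
  set Yf : Finset V := Wf.filter fun v => ¬ 3 < N v with hYf
  set Lf : Finset V := Wf.filter fun v => N v < 3 with hLf
  have hXY : (Xf.card : ℝ) + Yf.card = Wf.card := by
    exact_mod_cast Finset.card_filter_add_card_filter_not (s := Wf) (fun v => 3 < N v)
  have hWpos : (0 : ℝ) < Wf.card := by
    rw [← hWc]
    exact_mod_cast hW.ncard_pos (Set.toFinite _)
  -- the numerical estimates
  have hnum : 0 < (Yf.card : ℝ) ∧ (Lf.card : ℝ) + ∑ x ∈ Xf, (N x : ℝ) ≤ ε' * Yf.card := by
    rcases hcase with ⟨h1, h2⟩ | ⟨h1, h2⟩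
    · have hX0 : Xf = ∅ := by
        rw [hXf, Finset.filter_eq_empty_iff]
        intro v hv
        have := h1 v ((hmW v).1 hv)
        simp only [hN]
        omega
      have hY : (Yf.card : ℝ) = Wf.card := by
        rw [← hXY, hX0]
        simp
      rw [hY, hX0, Finset.sum_empty, add_zero]
      refine ⟨hWpos, ?_⟩
      have h3 : (Lf.card : ℝ) ≤ ∑ v ∈ Wf, (3 - (N v : ℝ)) := by
        calc (Lf.card : ℝ) = ∑ v ∈ Lf, (1 : ℝ) := by simp
          _ ≤ ∑ v ∈ Lf, (3 - (N v : ℝ)) := by
              apply Finset.sum_le_sum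
              intro v hv
              have h4 : N v < 3 := (Finset.mem_filter.1 hv).2
              have h5 : (N v : ℝ) + 1 ≤ 3 := by exact_mod_cast h4
              linarith
          _ ≤ ∑ v ∈ Wf, (3 - (N v : ℝ)) := by
              apply Finset.sum_le_sum_of_subset_of_nonneg (Finset.filter_subset _ _)
              intro v hv _
              have h4 : N v ≤ 3 := h1 v ((hmW v).1 hv)
              have h5 : (N v : ℝ) ≤ 3 := by exact_mod_cast h4
              linarith
      rw [Finset.sum_sub_distrib, hsumR, Finset.sum_const, nsmul_eq_mul] at h3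
      rw [hWc] at h2
      nlinarith
    · have hL0 : Lf = ∅ := by
        rw [hLf, Finset.filter_eq_empty_iff]
        intro v hv
        have := h1 v ((hmW v).1 hv)
        simp only [hN]
        omega
      have h3 : ∑ v ∈ Xf, ((N v : ℝ) - 3) ≤ ε * Wf.card := by
        calc ∑ v ∈ Xf, ((N v : ℝ) - 3) ≤ ∑ v ∈ Wf, ((N v : ℝ) - 3) := by
              apply Finset.sum_le_sum_of_subset_of_nonneg (Finset.filter_subset _ _)
              intro v hv _
              have h4 : 3 ≤ N v := h1 v ((hmW v).1 hv)
              have h5 : (3 : ℝ) ≤ N v := by exact_mod_cast h4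
              linarith
          _ = 2 * (H.edgeSet.ncard : ℝ) - Wf.card * 3 := by
              rw [Finset.sum_sub_distrib, hsumR, Finset.sum_const, nsmul_eq_mul]
          _ ≤ ε * Wf.card := by
              rw [hWc] at h2
              linarith
      have h4 : (Xf.card : ℝ) ≤ ∑ v ∈ Xf, ((N v : ℝ) - 3) := by
        calc (Xf.card : ℝ) = ∑ v ∈ Xf, (1 : ℝ) := by simp
          _ ≤ _ := by
              apply Finset.sum_le_sum
              intro v hv
              have h4 : 3 < N v := (Finset.mem_filter.1 hv).2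
              have h5 : (3 : ℝ) + 1 ≤ N v := by exact_mod_cast h4
              linarith
      have h5 : ∑ v ∈ Xf, (N v : ℝ) = ∑ v ∈ Xf, ((N v : ℝ) - 3) + 3 * Xf.card := by
        rw [Finset.sum_sub_distrib, Finset.sum_const, nsmul_eq_mul]
        ring
      have h6 : (Wf.card : ℝ) ≤ 2 * Yf.card := by nlinarith
      rw [hL0, Finset.card_empty, Nat.cast_zero, zero_add, h5]
      refine ⟨by linarith, ?_⟩
      have h7 : (0 : ℝ) ≤ Yf.card := by positivity
      nlinarith
  obtain ⟨hYpos, hbad⟩ := hnum
  -- the induced subgraph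
  set Y : Set V := {v | v ∈ Yf} with hY
  have hYc : Nat.card Y = Yf.card := by
    rw [Nat.card_coe_set_eq, hY, Finset.setOfPred_mem, Set.ncard_coe_finset]
  have : Nonempty Y := by
    have h1 : 0 < Yf.card := by exact_mod_cast hYpos
    obtain ⟨v, hv⟩ := Finset.card_pos.1 h1
    exact ⟨⟨v, hv⟩⟩
  have hdeg : ∀ v : Y, ((H.induce Y).neighborSet v).ncard ≤ N v := by
    intro v
    rw [← Set.ncard_image_of_injective _ Subtype.val_injective]
    refine Set.ncard_le_ncard ?_ (Set.toFinite _)
    rintro _ ⟨w, hw, rfl⟩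
    exact hw
  have hsub : ∀ v : Y, ((H.induce Y).neighborSet v).ncard ≤ 3 := by
    intro v
    have h1 : ¬ 3 < N v := (Finset.mem_filter.1 v.2).2
    exact (hdeg v).trans (not_lt.1 h1)
  have hB : ({v | ((H.induce Y).neighborSet v).ncard ≠ 3} : Set Y).ncard ≤
      Lf.card + ∑ x ∈ Xf, N x := by
    rw [← Set.ncard_image_of_injective _ Subtype.val_injective]
    have h1 : (Subtype.val '' ({v | ((H.induce Y).neighborSet v).ncard ≠ 3} : Set Y) : Set V) ⊆
        ((Lf ∪ Xf.biUnion fun x => H.neighborFinset x : Finset V) : Set V) := by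
      rintro _ ⟨v, hv, rfl⟩
      rw [Finset.mem_coe, Finset.mem_union, Finset.mem_biUnion]
      have hvW : (v : V) ∈ Wf := (Finset.mem_filter.1 v.2).1
      by_cases h3 : N v < 3
      · exact Or.inl (Finset.mem_filter.2 ⟨hvW, h3⟩)
      · right
        by_contra hno
        push Not at hno
        apply hv
        have h4 : ((H.induce Y).neighborSet v).ncard = N v := by
          rw [← Set.ncard_image_of_injective _ Subtype.val_injective]
          simp only [hN]
          congr 1
          ext w
          constructor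
          · rintro ⟨x, hx, rfl⟩
            exact hx
          · intro hw
            have hwadj : H.Adj v w := hw
            have hwW : w ∈ Wf := (hmW w).2 (hsupp ⟨v, hwadj.symm⟩)
            have hwX : w ∉ Xf := fun hwX => hno w hwX (by
              rw [SimpleGraph.mem_neighborFinset]
              exact hwadj.symm)
            have hwY : w ∈ Yf := by
              rw [hYf, Finset.mem_filter]
              refine ⟨hwW, fun h5 => hwX (Finset.mem_filter.2 ⟨hwW, h5⟩)⟩
            exact ⟨⟨w, hwY⟩, hw, rfl⟩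
        have h5 : ¬ 3 < N v := (Finset.mem_filter.1 v.2).2
        rw [h4]
        omega
    refine (Set.ncard_le_ncard h1 (Set.toFinite _)).trans ?_
    rw [Set.ncard_coe_finset]
    refine (Finset.card_union_le _ _).trans ?_
    gcongr
    refine Finset.card_biUnion_le.trans ?_
    apply Finset.sum_le_sum
    intro x _
    rw [SimpleGraph.card_neighborFinset_eq_degree, ← D1_ncard_neighbor H x]
  obtain ⟨u, C, hC, hCc⟩ := h Y (H.induce Y) hsub (by
    rw [hYc]
    refine le_trans ?_ hbad
    exact_mod_cast hB)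
  let f : H.induce Y →g G :=
    ⟨Subtype.val, fun {a b} h => hle (show H.Adj a b from h)⟩
  have hf : Function.Injective f := Subtype.val_injective
  refine ⟨f u, C.map f, hC.map hf, ?_⟩
  have h1 := chords_map f hf C
  have h2 : (C.map f).length = C.length := by simp
  rw [h2]
  have h3' : ((chords (H.induce Y) C).ncard : ℝ) ≤ ((chords G (C.map f)).ncard : ℝ) := by
    exact_mod_cast h1
  linarith

end Pool.Agent.H40.CL
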