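import Pool.Agent.H40.CK.A8
import Pool.Agent.H40.CK.B10
import Pool.Agent.H40.CL.C3
import Pool.Agent.H40.CL.C6
import Pool.Agent.H40.CL.C7
import Pool.Agent.H40.CL.C8
import Pool.Agent.H40.CL.C9
import Pool.Agent.H40.CL.C11
import Pool.Agent.H40.CL.D1

/-!
# CL / C12: subcubic graphs with few vertices of degree less than three
-/

namespace Pool.Agent.H40.CL

open SimpleGraph Pool.Agent.H40.CK

variable {V : Type*}

theorem neighborSet_sdiff_ncard [Finite V] {G E : SimpleGraph V} (hM : IsMatch E) (v : V) :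
    (G.neighborSet v).ncard ≤ ((G \ E).neighborSet v).ncard + 1 ∧
      ((G \ E).neighborSet v).ncard ≤ (G.neighborSet v).ncard := by
  classical
  have h1 : (G \ E).neighborSet v = G.neighborSet v \ E.neighborSet v := by
    ext w; simp
  have h2 : (E.neighborSet v).ncard ≤ 1 := by
    rw [Set.ncard_le_one (Set.toFinite _)]
    intro a ha b hb
    exact hM v a b ha hb
  have h3 : (G.neighborSet v).ncard ≤ (E.neighborSet v).ncard + ((G \ E).neighborSet v).ncard := by
    rw [h1, Nat.add_comm]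
    exact Set.ncard_le_ncard_sdiff_add_ncard _ _ (Set.toFinite _)
  have h4 : ((G \ E).neighborSet v).ncard ≤ (G.neighborSet v).ncard := by
    rw [h1]
    exact Set.ncard_le_ncard Set.sdiff_subset (Set.toFinite _)
  omega

/-- In a subcubic graph the edges outside a disjoint union of cycles with both ends covered form a
matching. -/
theorem free_isMatch [Finite V] {G F : SimpleGraph V} (hsub : ∀ v, (G.neighborSet v).ncard ≤ 3)
    (hle : F ≤ G) (hF : F.IsCycles) : IsMatch (fromEdgeSet (free G F)) := by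
  intro x y z hy hz
  rw [fromEdgeSet_adj] at hy hz
  obtain ⟨⟨hy1, hy2, hy3⟩, -⟩ := hy
  obtain ⟨⟨hz1, hz2, -⟩, -⟩ := hz
  have hx : x ∈ F.support := hy3 x (by simp)
  have hx2 : (F.neighborSet x).ncard = 2 := hF (by
    obtain ⟨w, hw⟩ := hx
    exact ⟨w, hw⟩)
  have h1 : (F.neighborSet x).ncard + (G.neighborSet x \ F.neighborSet x).ncard =
      (G.neighborSet x).ncard := by
    rw [Nat.add_comm]
    exact Set.ncard_sdiff_add_ncard_of_subset (fun w hw => hle hw) (Set.toFinite _)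
  have h3 := hsub x
  have h2 : (G.neighborSet x \ F.neighborSet x).ncard ≤ 1 := by omega
  rw [Set.ncard_le_one (Set.toFinite _)] at h2
  exact h2 y ⟨hy1, hy2⟩ z ⟨hz1, hz2⟩

universe u

theorem sub_main : Sub.{u} (1 / 10 ^ 20) (1 / 10 ^ 20) := by
  intro V _ _ G hsub hbad
  classical
  set Bad : Set V := {v | (G.neighborSet v).ncard ≠ 3} with hBadDef
  have hthree : ∀ v, v ∉ Bad → (G.neighborSet v).ncard = 3 := by
    intro v hv
    by_contra h
    exact hv h
  have hbadN : 10 ^ 20 * Bad.ncard ≤ Nat.card V := by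
    have h1 : (10 : ℝ) ^ 20 * (Bad.ncard : ℝ) ≤ (Nat.card V : ℝ) := by
      rw [div_mul_eq_mul_div, one_mul, le_div_iff₀ (by positivity)] at hbad
      linarith
    exact_mod_cast h1
  obtain ⟨s, hs⟩ : ∃ s : ℕ, s = 10 ^ 14 := ⟨_, rfl⟩
  obtain ⟨K, hK⟩ : ∃ K : ℕ, K = 6000 * s := ⟨_, rfl⟩
  have hs1 : 1 ≤ s := by rw [hs]; norm_num
  by_cases hSC : ShortChorded G (3 * K)
  · obtain ⟨u, C, hC, hl, hne⟩ := hSC
    refine ⟨u, C, hC, ?_⟩
    have h1 : 1 ≤ (chords G C).ncard := (Set.ncard_pos (Set.toFinite _)).2 hne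
    have h1' : (1 : ℝ) ≤ ((chords G C).ncard : ℝ) := by exact_mod_cast h1
    have h2 : (C.length : ℝ) ≤ 3 * (6000 * 10 ^ 14) := by
      have : C.length ≤ 3 * (6000 * 10 ^ 14) := by rw [hK, hs] at hl; exact hl
      exact_mod_cast this
    have h3 : (1 / 10 ^ 20 : ℝ) * (C.length : ℝ) ≤ 1 := by
      calc (1 / 10 ^ 20 : ℝ) * (C.length : ℝ) ≤ (1 / 10 ^ 20 : ℝ) * (3 * (6000 * 10 ^ 14)) := by
            gcongr
        _ ≤ 1 := by norm_num
    linarith
  have hno : ¬ ShortChorded G (3 * s) := fun h => hSC (h.mono le_rfl (by omega))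
  obtain ⟨E, hE⟩ := CL.exists_hitData hsub hno
  have hT2 : (T2 (G \ E)).ncard ≤ Bad.ncard + 6 * s * ((ent (G \ E)).ncard + 2 * Bad.ncard) :=
    CL.T2_bound (by omega) Bad fun x h0 h1 h2 h3 =>
      hno (CL.no_long_chain hs1 hE le_rfl x (fun i hi => hthree _ (h0 i hi)) h1 h2 h3)
  obtain ⟨ht, hne⟩ := CL.T_bound (G₁ := G \ E) Bad
    (fun v => (neighborSet_sdiff_ncard hE.mat v).2.trans (hsub v))
    (fun v hv => by
      have h1 := (neighborSet_sdiff_ncard (G := G) hE.mat v).1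
      rw [hthree v hv] at h1
      omega) hs1
    (fun κ hnt hb hκ => by
      by_contra hlt
      exact hSC (CL.small_comp hsub (by omega) hE κ (fun v hv => hthree v (hκ v hv)) hnt
        (by omega) hb)) hT2
    (by
      refine le_trans ?_ hbadN
      rw [hs]
      exact le_of_eq (by ring))
  have hHG1 : cyc (G \ E) ≤ G \ E := cyc_le _
  have hHG : cyc (G \ E) ≤ G := hHG1.trans sdiff_le
  have hg := CL.goodE_card hsub Bad hthree hHG (fun v hv => two_le_cyc hv)
  have hmono : ∀ v, ((cyc (G \ E)).neighborSet v).ncard ≤ 3 := by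
    intro v
    exact (Set.ncard_le_ncard (fun w hw => hHG hw) (Set.toFinite _)).trans (hsub v)
  obtain ⟨F, hFH, hFc, hFg⟩ := random_even (cyc (G \ E)) hmono
    (fun u v h => by
      obtain ⟨C, hC, he⟩ := cyc_cycle h
      exact ⟨u, C, hC, he⟩)
    (goodE G (cyc (G \ E)))
    (fun e he => G.not_isDiag_of_mem_edgeSet he.1)
    (fun e he => he.2.1) (fun e he => he.2.2)
  have hFG1 : F ≤ G \ E := hFH.trans hHG1
  have hFG : F ≤ G := hFH.trans hHG
  -- the long cycles
  have hlong : Long F s := by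
    intro v hv
    obtain ⟨C, hC, hl, -, he⟩ := comp_cycle hFc hFG hv
    by_contra hlt
    obtain ⟨e, heC, heE⟩ := hE.hit v C hC (by omega)
    have h1 : e ∈ F.edgeSet := ((he e).1 heC).1
    have h2 : e ∈ (G \ E).edgeSet := (edgeSet_mono hFG1) h1
    rw [edgeSet_sdiff] at h2
    exact h2.2 heE
  set M : SimpleGraph V := fromEdgeSet (free G F) with hMdef
  have hMedge : M.edgeSet = free G F := by
    rw [hMdef, edgeSet_fromEdgeSet]
    ext e
    constructor
    · exact fun h => h.1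
    · exact fun h => ⟨h, G.not_isDiag_of_mem_edgeSet h.1⟩
  have hMmatch : IsMatch M := free_isMatch hsub hFG hFc
  have hsub' : ({e | e ∈ goodE G (cyc (G \ E)) ∧ e ∉ F.edgeSet ∧ ∀ z ∈ e, z ∈ F.support} :
      Set (Sym2 V)) ⊆ free G F := by
    rintro e ⟨h1, h2, h3⟩
    exact ⟨h1.1, h2, h3⟩
  have hcount := Set.ncard_le_ncard hsub' (Set.toFinite _)
  have hn1 : 1 ≤ (cyc (G \ E)).support.ncard := (Set.ncard_pos (Set.toFinite _)).2 hne
  have hnV : (cyc (G \ E)).support.ncard + ((cyc (G \ E)).supportᶜ).ncard = Nat.card V :=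
    Set.ncard_add_ncard_compl _
  have hFsupp : F.support.ncard ≤ (cyc (G \ E)).support.ncard :=
    Set.ncard_le_ncard (support_mono hFH) (Set.toFinite _)
  have hmain : F.support.ncard ≤ 30 * (free G F).ncard := by omega
  have hfree1 : 1 ≤ (free G F).ncard := by omega
  obtain ⟨e, he⟩ := (Set.ncard_pos (Set.toFinite _)).1 hfree1
  have hFne : F.support.Nonempty := by
    induction e with
    | h x y => exact ⟨x, he.2.2 x (by simp)⟩
  obtain ⟨u, C, hC, hCc⟩ := theoremA F M (1 / 30) (by norm_num) (by norm_num) s hFc hMmatch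
    (by
      intro x y hxy hF
      rw [hMdef, fromEdgeSet_adj] at hxy
      exact hxy.1.2.1 hF)
    (by
      rintro x ⟨y, hxy⟩
      have hxy' : (fromEdgeSet (free G F)).Adj x y := hxy
      rw [fromEdgeSet_adj] at hxy'
      exact hxy'.1.2.2 x (by simp))
    hFne
    (by
      rw [hMedge]
      have : (F.support.ncard : ℝ) ≤ 30 * ((free G F).ncard : ℝ) := by exact_mod_cast hmain
      linarith)
    hlong
    (by rw [hs]; norm_num)
  have hMG : M ≤ G := by
    intro x y hxy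
    rw [hMdef, fromEdgeSet_adj] at hxy
    exact hxy.1.1
  have hsup : F ⊔ M ≤ G := sup_le hFG hMG
  refine ⟨u, C.mapLe hsup, hC.mapLe hsup, ?_⟩
  have hsub2 : ({e | e ∈ M.edgeSet ∧ e ∉ C.edges ∧ ∀ z ∈ e, z ∈ C.support} : Set (Sym2 V)) ⊆
      chords G (C.mapLe hsup) := by
    rintro e ⟨h1, h2, h3⟩
    refine ⟨(edgeSet_mono hMG) h1, by simpa using h2, by simpa using h3⟩
  have hcount2 := Set.ncard_le_ncard hsub2 (Set.toFinite _)
  have hlen : (C.mapLe hsup).length = C.length := by simp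
  rw [hlen]
  have h5 : ((({e | e ∈ M.edgeSet ∧ e ∉ C.edges ∧ ∀ z ∈ e, z ∈ C.support} :
      Set (Sym2 V)).ncard : ℕ) : ℝ) ≤ ((chords G (C.mapLe hsup)).ncard : ℝ) := by
    exact_mod_cast hcount2
  have h6 : (0 : ℝ) ≤ (C.length : ℝ) := Nat.cast_nonneg _
  have h7 : (1 / 10 ^ 20 : ℝ) * (C.length : ℝ) ≤ 1 / 30 / 8 * (C.length : ℝ) :=
    mul_le_mul_of_nonneg_right (by norm_num) h6
  linarith

end Pool.Agent.H40.CL
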